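import Mathlib
import Pool.Agent.H547R3.Sub.PA

set_option autoImplicit false

open Finset

namespace Pool.Agent.TH796.CB

open Pool.Agent.H547R3.Sub (Bd denS)

/-- an integer `≥ 2` -/
def Two (p : ℕ) : Prop := 2 ≤ p

lemma Two.two_le {p : ℕ} (h : Two p) : 2 ≤ p := h
lemma Two.pos {p : ℕ} (h : Two p) : 0 < p := by unfold Two at h; omega
lemma Two.ne_zero {p : ℕ} (h : Two p) : p ≠ 0 := h.pos.ne'
lemma Two.one_lt {p : ℕ} (h : Two p) : 1 < p := by unfold Two at h; omega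
lemma Two.one_le {p : ℕ} (h : Two p) : 1 ≤ p := h.pos

lemma prod_pow' {m n : ℕ} (Y : Fin n) (b : ℝ) (u Z : Fin m → Fin n → ℕ) :
    ∏ h, ∏ l, (if l = Y then (1 : ℝ) else (b ^ (u h l))) ^ (Z h l) =
      b ^ (∑ h, ∑ l ∈ univ.erase Y, u h l * Z h l) := by
  classical
  rw [← Finset.prod_pow_eq_pow_sum]
  apply Finset.prod_congr rfl
  intro h _
  rw [← Finset.mul_prod_erase Finset.univ _ (Finset.mem_univ Y), if_pos rfl, one_pow, one_mul,
    ← Finset.prod_pow_eq_pow_sum]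
  apply Finset.prod_congr rfl
  intro l hl
  rw [if_neg (by simpa using hl), ← pow_mul]

/-- divisibility by a natural number from the `r`-adic norms -/
lemma dvd_of_norm {m : ℕ} {g : ℤ}
    (h : ∀ (r : ℕ) [Fact r.Prime], r ∣ m → ‖(g : ℚ_[r])‖ ≤ ‖(m : ℚ_[r])‖) : (m : ℤ) ∣ g := by
  rw [Int.natCast_dvd, Nat.dvd_iff_prime_pow_dvd_dvd]
  intro r k hr hk
  haveI := Fact.mk hr
  rcases Nat.eq_zero_or_pos k with rfl | hk0
  · simp
  have h1 := h r ((dvd_pow_self r hk0.ne').trans hk)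
  have h2 : ‖(m : ℚ_[r])‖ ≤ (r : ℝ) ^ (-(k : ℤ)) := by
    have := (Padic.norm_int_le_pow_iff_dvd (p := r) (m : ℤ) k).2 (by exact_mod_cast hk)
    simpa using this
  have h3 := (Padic.norm_int_le_pow_iff_dvd (p := r) g k).1 (h1.trans h2)
  have h4 : ((r ^ k : ℕ) : ℤ) ∣ g := by exact_mod_cast h3
  exact Int.natCast_dvd.1 h4

lemma norm_one_of_coprime {r p q : ℕ} [Fact r.Prime] (hpq : p.Coprime q) (hr : r ∣ p) :
    ‖(q : ℚ_[r])‖ = 1 :=
  Padic.norm_natCast_eq_one_iff.2 (Nat.Coprime.coprime_dvd_left hr hpq)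

lemma norm_nat_pos {r p : ℕ} [Fact r.Prime] (hp : p ≠ 0) : 0 < ‖(p : ℚ_[r])‖ := by
  rw [norm_pos_iff]
  exact_mod_cast hp

/-- product formula for elements of `denS p q` -/
lemma denS_eq_zero {p q : ℕ} (hp : Two p) (hq : Two q) (hpq : p.Coprime q) {z : ℚ}
    (hz : z ∈ denS p q) (E F : ℕ)
    (h1 : ∀ (r : ℕ) [Fact r.Prime], r ∣ p → ‖(z : ℚ_[r])‖ ≤ ‖(p : ℚ_[r])‖ ^ E)
    (h2 : ∀ (r : ℕ) [Fact r.Prime], r ∣ q → ‖(z : ℚ_[r])‖ ≤ ‖(q : ℚ_[r])‖ ^ F)
    (h3 : |(z : ℝ)| < (p : ℝ) ^ E * (q : ℝ) ^ F) :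
    z = 0 := by
  by_contra hz0
  obtain ⟨x, g, hg⟩ := hz
  have hp0 : (0 : ℝ) < p := by exact_mod_cast hp.pos
  have hq0 : (0 : ℝ) < q := by exact_mod_cast hq.pos
  have hpd : ((p : ℤ)) ^ (x + E) ∣ g := by
    have h : ((p ^ (x + E) : ℕ) : ℤ) ∣ g := by
      apply dvd_of_norm
      intro r _ hr
      have hr' : r ∣ p := (Fact.out : r.Prime).dvd_of_dvd_pow hr
      have e1 : (g : ℚ_[r]) = (z : ℚ_[r]) * ((p : ℚ_[r]) * (q : ℚ_[r])) ^ x := by
        have := congrArg (fun t : ℚ => (t : ℚ_[r])) hg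
        push_cast at this
        rw [← this]
      rw [e1, norm_mul, norm_pow, norm_mul, norm_one_of_coprime hpq hr', mul_one]
      push_cast
      rw [norm_pow, pow_add, mul_comm (‖(p : ℚ_[r])‖ ^ x)]
      exact mul_le_mul_of_nonneg_right (h1 r hr') (by positivity)
    exact_mod_cast h
  have hqd : ((q : ℤ)) ^ (x + F) ∣ g := by
    have h : ((q ^ (x + F) : ℕ) : ℤ) ∣ g := by
      apply dvd_of_norm
      intro r _ hr
      have hr' : r ∣ q := (Fact.out : r.Prime).dvd_of_dvd_pow hr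
      have e1 : (g : ℚ_[r]) = (z : ℚ_[r]) * ((p : ℚ_[r]) * (q : ℚ_[r])) ^ x := by
        have := congrArg (fun t : ℚ => (t : ℚ_[r])) hg
        push_cast at this
        rw [← this]
      rw [e1, norm_mul, norm_pow, norm_mul, norm_one_of_coprime hpq.symm hr', one_mul]
      push_cast
      rw [norm_pow, pow_add, mul_comm (‖(q : ℚ_[r])‖ ^ x)]
      exact mul_le_mul_of_nonneg_right (h2 r hr') (by positivity)
    exact_mod_cast h
  have hg0 : g ≠ 0 := by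
    rintro rfl
    rw [Int.cast_zero] at hg
    rcases mul_eq_zero.1 hg with h | h
    · exact hz0 h
    · have h5 : ((p * q : ℕ) : ℚ) ≠ 0 := by
        have : p * q ≠ 0 := Nat.mul_ne_zero hp.ne_zero hq.ne_zero
        exact_mod_cast this
      exact pow_ne_zero _ h5 h
  have hdvd : ((p : ℤ)) ^ (x + E) * (q : ℤ) ^ (x + F) ∣ g := by
    apply IsCoprime.mul_dvd _ hpd hqd
    apply IsCoprime.pow
    exact Nat.isCoprime_iff_coprime.2 hpq
  have hle := Int.le_of_dvd (abs_pos.2 hg0) ((dvd_abs _ _).2 hdvd)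
  have hle' : (p : ℝ) ^ (x + E) * (q : ℝ) ^ (x + F) ≤ |(g : ℝ)| := by exact_mod_cast hle
  have e3 : |(g : ℝ)| = |(z : ℝ)| * ((p : ℝ) * q) ^ x := by
    have := congrArg (fun t : ℚ => (t : ℝ)) hg
    push_cast at this
    rw [← this, abs_mul, abs_of_pos (by positivity : (0 : ℝ) < ((p : ℝ) * q) ^ x)]
  rw [e3] at hle'
  have e4 : (p : ℝ) ^ (x + E) * (q : ℝ) ^ (x + F) =
      ((p : ℝ) ^ E * (q : ℝ) ^ F) * ((p : ℝ) * q) ^ x := by
    rw [pow_add, pow_add, mul_pow]; ring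
  rw [e4] at hle'
  have := le_of_mul_le_mul_right hle' (by positivity)
  linarith

end Pool.Agent.TH796.CB
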