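import Mathlib
import Pool.Agent.H547R3.Sub.Bad
import Pool.Agent.TH796.CB.PA

set_option autoImplicit false

open Finset

namespace Pool.Agent.TH796.CB

open Pool.Agent.H547R3.Sub (two_le_exp')

/-- admissible exponents: `n`, `K` are `O(N)`, `q ^ K ≤ p ^ n`, and the `β i` are separated from each
other and from the bound `K` -/
def Adm2 (p q : ℕ) (s : ℕ) (δ : ℝ) (N n K : ℕ) (β : Fin s → ℕ) : Prop :=
  δ * n ≤ N ∧ δ * K ≤ N ∧ (q : ℝ) ^ K ≤ (p : ℝ) ^ n ∧ (∀ i, (β i : ℝ) + δ * N ≤ K) ∧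
    ∀ i j, i ≠ j → δ * N ≤ |(β i : ℝ) - β j|

lemma Adm2.mono {p q s : ℕ} {δ δ' : ℝ} {N n K : ℕ} {β : Fin s → ℕ} (h : Adm2 p q s δ N n K β)
    (hd : δ' ≤ δ) : Adm2 p q s δ' N n K β := by
  have hN : δ' * N ≤ δ * N := mul_le_mul_of_nonneg_right hd (Nat.cast_nonneg _)
  refine ⟨(mul_le_mul_of_nonneg_right hd (Nat.cast_nonneg _)).trans h.1,
    (mul_le_mul_of_nonneg_right hd (Nat.cast_nonneg _)).trans h.2.1, h.2.2.1, fun i => ?_,
    fun i j hij => ?_⟩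
  · linarith [h.2.2.2.1 i]
  · linarith [h.2.2.2.2 i j hij]

lemma Adm2.comp {p q s s' : ℕ} {δ : ℝ} {N n K : ℕ} {β : Fin s → ℕ} (h : Adm2 p q s δ N n K β)
    (f : Fin s' → Fin s) (hf : Function.Injective f) :
    Adm2 p q s' δ N n K (fun i => β (f i)) :=
  ⟨h.1, h.2.1, h.2.2.1, fun i => h.2.2.2.1 _, fun i j hij => h.2.2.2.2 _ _ (fun hh => hij (hf hh))⟩

/-- bad data -/
def Bad2 (p q : ℕ) (s : ℕ) (δ : ℝ) : Prop :=
  ∀ ε : ℝ, 0 < ε → ∀ N0 : ℕ, ∃ N : ℕ, N0 ≤ N ∧ ∃ (n K : ℕ) (β : Fin s → ℕ), Adm2 p q s δ N n K β ∧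
    ∃ lam : Fin s → ℤ, lam ≠ 0 ∧ (∀ j, |(lam j : ℝ)| ≤ Real.exp (ε * N)) ∧
      ∃ x : ℤ, (q : ℤ) ^ K ∣ x + ∑ j, lam j * ((p : ℤ) ^ n * (q : ℤ) ^ β j) ∧
        |(x : ℝ)| ≤ (q : ℝ) ^ K * Real.exp (-(δ * N))

lemma not_bad_iff2 {p q : ℕ} {s : ℕ} {δ : ℝ} (h : ¬ Bad2 p q s δ) :
    ∃ ε : ℝ, 0 < ε ∧ ∃ N0 : ℕ, ∀ N : ℕ, N0 ≤ N → ∀ (n K : ℕ) (β : Fin s → ℕ),
      Adm2 p q s δ N n K β → ∀ lam : Fin s → ℤ, lam ≠ 0 →
      (∀ j, |(lam j : ℝ)| ≤ Real.exp (ε * N)) → ∀ x : ℤ,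
      (q : ℤ) ^ K ∣ x + ∑ j, lam j * ((p : ℤ) ^ n * (q : ℤ) ^ β j) →
      (q : ℝ) ^ K * Real.exp (-(δ * N)) < |(x : ℝ)| := by
  unfold Bad2 at h
  push Not at h
  exact h

theorem gap2 {p q : ℕ} [Fact (Two p)] [Fact (Two q)] (hpq : p.Coprime q) {s : ℕ} (δ δ1 : ℝ) (hδ : 0 < δ)
    (hδ1 : 0 < δ1)
    (h : ∀ δ' : ℝ, 0 < δ' → ¬ Bad2 p q s δ') :
    ∃ ε : ℝ, 0 < ε ∧ ∃ N0 : ℕ, ∀ N : ℕ, N0 ≤ N → ∀ (n K : ℕ) (β : Fin (s + 1) → ℕ),
      Adm2 p q (s + 1) δ N n K β →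
      ∀ (lam lam' : Fin (s + 1) → ℤ) (x x' : ℤ), lam ≠ 0 →
      (∀ i, |(lam i : ℝ)| ≤ Real.exp (ε * N)) →
      (∀ i, |(lam' i : ℝ)| ≤ Real.exp (ε * N)) →
      (q : ℤ) ^ K ∣ x + ∑ j, lam j * ((p : ℤ) ^ n * (q : ℤ) ^ β j) →
      (q : ℤ) ^ K ∣ x' + ∑ j, lam' j * ((p : ℤ) ^ n * (q : ℤ) ^ β j) →
      |(x : ℝ)| ≤ (q : ℝ) ^ K * Real.exp (-(δ1 * N)) →
      |(x' : ℝ)| ≤ (q : ℝ) ^ K * Real.exp (-(δ1 * N)) →
      (∀ u v : ℤ, (∀ i, u * lam i - v * lam' i = 0) → u * x - v * x' = 0 → v = 0) → False := by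
  have hp : Two p := Fact.out
  have hq : Two q := Fact.out
  have hcop : p.Coprime q := hpq
  set δ' : ℝ := min δ (δ1 / 4) with hδ'
  have hδ'0 : 0 < δ' := by rw [hδ']; apply lt_min hδ; positivity
  obtain ⟨ε', hε', L1, hL1⟩ := not_bad_iff2 (h δ' hδ'0)
  set ε : ℝ := min (ε' / 4) (δ1 / 4) with hεdef
  have hε : 0 < ε := by rw [hεdef]; apply lt_min <;> positivity
  refine ⟨ε, hε, max L1 (max ⌈2 / ε'⌉₊ ⌈4 / δ1⌉₊), ?_⟩
  intro N hN n K β hadm lam lam' x x' hlam hle hle' hxq hxq' hf hf' hind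
  have hL1' : L1 ≤ N := le_trans (le_max_left _ _) hN
  have hL2 : 2 / ε' ≤ N := by
    refine le_trans (Nat.le_ceil _) ?_
    exact_mod_cast le_trans (le_trans (le_max_left _ _) (le_max_right _ _)) hN
  have hL3 : 4 / δ1 ≤ N := by
    refine le_trans (Nat.le_ceil _) ?_
    exact_mod_cast le_trans (le_trans (le_max_right _ _) (le_max_right _ _)) hN
  have hN0 : (0 : ℝ) ≤ N := Nat.cast_nonneg _
  have he1 : 2 ≤ Real.exp (ε' / 2 * N) := by
    apply two_le_exp'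
    rw [div_le_iff₀ hε'] at hL2
    linarith
  have he2 : 2 ≤ Real.exp (δ1 / 4 * N) := by
    apply two_le_exp'
    rw [div_le_iff₀ hδ1] at hL3
    linarith
  set D : ℝ := (q : ℝ) ^ K with hD
  have hD0 : 0 < D := by
    have h1 : (0 : ℝ) < p := by exact_mod_cast hp.pos
    have h2 : (0 : ℝ) < q := by exact_mod_cast hq.pos
    positivity
  obtain ⟨j, hj⟩ : ∃ j, lam j ≠ 0 := by
    by_contra hcon
    push Not at hcon
    exact hlam (funext hcon)
  set y : Fin (s + 1) → ℤ := fun i => lam' j * lam i - lam j * lam' i with hy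
  set xy : ℤ := lam' j * x - lam j * x' with hxy
  have hyj : y j = 0 := by rw [hy]; ring
  have hxyle : |(xy : ℝ)| ≤ 2 * (D * Real.exp (ε * N - δ1 * N)) := by
    rw [hxy]
    push_cast
    refine le_trans (abs_sub _ _) ?_
    rw [abs_mul, abs_mul]
    have h1 : |(lam' j : ℝ)| * |(x : ℝ)| ≤
        Real.exp (ε * N) * (D * Real.exp (-(δ1 * N))) :=
      mul_le_mul (hle' j) hf (abs_nonneg _) (Real.exp_pos _).le
    have h2 : |(lam j : ℝ)| * |(x' : ℝ)| ≤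
        Real.exp (ε * N) * (D * Real.exp (-(δ1 * N))) :=
      mul_le_mul (hle j) hf' (abs_nonneg _) (Real.exp_pos _).le
    have h3 : Real.exp (ε * N) * (D * Real.exp (-(δ1 * N))) = D * Real.exp (ε * N - δ1 * N) := by
      rw [sub_eq_add_neg, Real.exp_add]; ring
    rw [h3] at h1 h2
    linarith
  have hyle : ∀ i, |(y i : ℝ)| ≤ 2 * Real.exp (2 * ε * N) := by
    intro i
    rw [hy]
    push_cast
    refine le_trans (abs_sub _ _) ?_
    rw [abs_mul, abs_mul]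
    have h1 : |(lam' j : ℝ)| * |(lam i : ℝ)| ≤ Real.exp (ε * N) * Real.exp (ε * N) :=
      mul_le_mul (hle' j) (hle i) (abs_nonneg _) (Real.exp_pos _).le
    have h2 : |(lam j : ℝ)| * |(lam' i : ℝ)| ≤ Real.exp (ε * N) * Real.exp (ε * N) :=
      mul_le_mul (hle j) (hle' i) (abs_nonneg _) (Real.exp_pos _).le
    rw [← Real.exp_add] at h1 h2
    have h3 : ε * N + ε * N = 2 * ε * N := by ring
    rw [h3] at h1 h2
    linarith
  have hεδ : ε ≤ δ1 / 4 := min_le_right _ _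
  have hεε : ε ≤ ε' / 4 := min_le_left _ _
  have hδ'δ1 : δ' ≤ δ1 / 4 := min_le_right _ _
  have hsmall : 2 * (D * Real.exp (ε * N - δ1 * N)) ≤ D * Real.exp (-(δ' * N)) := by
    have h1 : 2 * Real.exp (ε * N - δ1 * N) ≤ Real.exp (-(δ' * N)) := by
      calc 2 * Real.exp (ε * N - δ1 * N) ≤ Real.exp (δ1 / 4 * N) * Real.exp (ε * N - δ1 * N) :=
            mul_le_mul_of_nonneg_right he2 (Real.exp_pos _).le
        _ = Real.exp (δ1 / 4 * N + (ε * N - δ1 * N)) := by rw [Real.exp_add]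
        _ ≤ Real.exp (-(δ' * N)) := by
            apply Real.exp_le_exp.mpr
            nlinarith
    nlinarith
  have hsumy : ∑ i, y i * ((p : ℤ) ^ n * (q : ℤ) ^ β i) =
      lam' j * ∑ i, lam i * ((p : ℤ) ^ n * (q : ℤ) ^ β i) -
      lam j * ∑ i, lam' i * ((p : ℤ) ^ n * (q : ℤ) ^ β i) := by
    rw [Finset.mul_sum, Finset.mul_sum, ← Finset.sum_sub_distrib]
    apply Finset.sum_congr rfl
    intro i _
    simp only [hy]; ring
  have hxyq : (q : ℤ) ^ K ∣ xy + ∑ i, y i * ((p : ℤ) ^ n * (q : ℤ) ^ β i) := by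
    have h1 : xy + ∑ i, y i * ((p : ℤ) ^ n * (q : ℤ) ^ β i) =
        lam' j * (x + ∑ i, lam i * ((p : ℤ) ^ n * (q : ℤ) ^ β i)) -
        lam j * (x' + ∑ i, lam' i * ((p : ℤ) ^ n * (q : ℤ) ^ β i)) := by
      rw [hsumy, hxy]; ring
    rw [h1]
    exact (hxq.mul_left _).sub (hxq'.mul_left _)
  by_cases hy0 : (fun i => y (j.succAbove i)) = 0
  · have hyall : ∀ i, y i = 0 := by
      intro i
      rcases Fin.eq_self_or_eq_succAbove j i with h1 | ⟨k, h1⟩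
      · rw [h1]; exact hyj
      · rw [h1]; exact congrFun hy0 k
    have hxy0 : xy = 0 := by
      by_contra hne
      have h0 : ∑ i, y i * ((p : ℤ) ^ n * (q : ℤ) ^ β i) = 0 := by
        apply Finset.sum_eq_zero
        intro i _
        rw [hyall i, zero_mul]
      rw [h0, add_zero] at hxyq
      have h2 := Int.le_of_dvd (abs_pos.2 hne) ((dvd_abs _ _).2 hxyq)
      have h2' : D ≤ |(xy : ℝ)| := by
        rw [hD]
        exact_mod_cast h2
      have h4 : 2 * (D * Real.exp (ε * N - δ1 * N)) < D := by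
        have h5 : Real.exp (ε * N - δ1 * N) * (Real.exp (δ1 / 4 * N) * Real.exp (δ1 / 4 * N)) ≤ 1 := by
          rw [← Real.exp_add, ← Real.exp_add]
          rw [Real.exp_le_one_iff]
          nlinarith
        have h6 := Real.exp_pos (ε * N - δ1 * N)
        have h7 : 2 * Real.exp (ε * N - δ1 * N) < 1 := by nlinarith
        nlinarith
      linarith
    have := hind (lam' j) (lam j) hyall hxy0
    exact hj this
  · have h2 : ∑ i, y i * ((p : ℤ) ^ n * (q : ℤ) ^ β i) =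
        ∑ i, y (j.succAbove i) * ((p : ℤ) ^ n * (q : ℤ) ^ β (j.succAbove i)) := by
      rw [Fin.sum_univ_succAbove _ j, hyj, zero_mul, zero_add]
    have h1 := hL1 N hL1' n K (fun i => β (j.succAbove i))
      ((hadm.mono (min_le_left _ _)).comp _ Fin.succAbove_right_injective)
      (fun i => y (j.succAbove i)) hy0
      (by
        intro i
        refine le_trans (hyle _) ?_
        calc 2 * Real.exp (2 * ε * N) ≤ Real.exp (ε' / 2 * N) * Real.exp (2 * ε * N) :=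
              mul_le_mul_of_nonneg_right he1 (Real.exp_pos _).le
          _ = Real.exp (ε' / 2 * N + 2 * ε * N) := by rw [Real.exp_add]
          _ ≤ Real.exp (ε' * N) := by
              apply Real.exp_le_exp.mpr
              nlinarith)
      xy (by rw [← h2]; exact hxyq)
    exact absurd (le_trans hxyle hsmall) (not_le.mpr h1)


/-- Normalisation: the least exponent may be taken to be `β 0 = 0`. -/
lemma Bad2.norm {p q : ℕ} [Fact (Two p)] [Fact (Two q)] {s : ℕ} {δ : ℝ} (hδ : 0 < δ)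
    (h : Bad2 p q (s + 1) δ) :
    ∀ ε : ℝ, 0 < ε → ∀ N0 : ℕ, ∃ N : ℕ, N0 ≤ N ∧ ∃ (n K : ℕ) (β : Fin (s + 1) → ℕ), β 0 = 0 ∧
      Adm2 p q (s + 1) δ N n K β ∧
      ∃ lam : Fin (s + 1) → ℤ, lam ≠ 0 ∧ (∀ j, |(lam j : ℝ)| ≤ Real.exp (ε * N)) ∧
        ∃ x : ℤ, (q : ℤ) ^ K ∣ x + ∑ j, lam j * ((p : ℤ) ^ n * (q : ℤ) ^ β j) ∧
          |(x : ℝ)| ≤ (q : ℝ) ^ K * Real.exp (-(δ * N)) := by
  have hq : Two q := Fact.out
  have hq0 : (0 : ℝ) < q := by exact_mod_cast hq.pos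
  have hqZ : (q : ℤ) ≠ 0 := by exact_mod_cast hq.ne_zero
  intro ε hε N0
  obtain ⟨N, hN, n, K, β, hadm, lam, hlam, hle, x, hx, hxle⟩ := h ε hε N0
  have hN0 : (0 : ℝ) ≤ N := Nat.cast_nonneg _
  have hδN : 0 ≤ δ * N := by positivity
  obtain ⟨l1, -, hl1⟩ := Finset.exists_min_image Finset.univ β ⟨0, Finset.mem_univ _⟩
  have hmin : ∀ l, β l1 ≤ β l := fun l => hl1 l (Finset.mem_univ l)
  obtain ⟨b, hb⟩ : ∃ b, b = β l1 := ⟨_, rfl⟩
  rw [← hb] at hmin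
  set σ : Equiv.Perm (Fin (s + 1)) := Equiv.swap 0 l1 with hσ
  have hbK : b ≤ K := by
    have h1 := hadm.2.2.2.1 l1
    rw [← hb] at h1
    have h2 : (b : ℝ) ≤ K := by linarith
    exact_mod_cast h2
  have hdx : (q : ℤ) ^ b ∣ x := by
    have h1 : (q : ℤ) ^ b ∣ x + ∑ j, lam j * ((p : ℤ) ^ n * (q : ℤ) ^ β j) :=
      (pow_dvd_pow _ hbK).trans hx
    have h2 : (q : ℤ) ^ b ∣ ∑ j, lam j * ((p : ℤ) ^ n * (q : ℤ) ^ β j) :=
      Finset.dvd_sum (fun j _ => ((pow_dvd_pow _ (hmin j)).mul_left _).mul_left _)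
    exact (dvd_add_left h2).1 h1
  obtain ⟨x', hx'⟩ := hdx
  have hqK : (q : ℝ) ^ K = (q : ℝ) ^ b * (q : ℝ) ^ (K - b) := by
    rw [← pow_add, Nat.add_sub_cancel' hbK]
  have hqKZ : (q : ℤ) ^ K = (q : ℤ) ^ b * (q : ℤ) ^ (K - b) := by
    rw [← pow_add, Nat.add_sub_cancel' hbK]
  refine ⟨N, hN, n, K - b, fun i => β (σ i) - b, ?_, ?_,
    fun i => lam (σ i), ?_, fun j => hle _, x', ?_, ?_⟩
  · simp [hσ, hb]
  · refine ⟨hadm.1, ?_, ?_, fun i => ?_, fun i j hij => ?_⟩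
    · refine le_trans ?_ hadm.2.1
      apply mul_le_mul_of_nonneg_left _ hδ.le
      exact_mod_cast Nat.sub_le _ _
    · refine le_trans ?_ hadm.2.2.1
      exact pow_le_pow_right₀ (by exact_mod_cast hq.one_le) (Nat.sub_le _ _)
    · rw [Nat.cast_sub (hmin _), Nat.cast_sub hbK]
      linarith [hadm.2.2.2.1 (σ i)]
    · rw [Nat.cast_sub (hmin _), Nat.cast_sub (hmin _)]
      have h1 := hadm.2.2.2.2 (σ i) (σ j) (fun hh => hij (σ.injective hh))
      have h2 : (β (σ i) : ℝ) - b - ((β (σ j) : ℝ) - b) = (β (σ i) : ℝ) - β (σ j) := by ring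
      rw [h2]
      exact h1
  · intro h0
    apply hlam
    funext l
    have h1 := congrFun h0 (σ.symm l)
    simpa using h1
  · have h1 : (q : ℤ) ^ b * (x' + ∑ j, lam (σ j) * ((p : ℤ) ^ n * (q : ℤ) ^ (β (σ j) - b))) =
        x + ∑ j, lam j * ((p : ℤ) ^ n * (q : ℤ) ^ β j) := by
      rw [mul_add, ← hx', Finset.mul_sum]
      congr 1
      rw [← Equiv.sum_comp σ (fun j => lam j * ((p : ℤ) ^ n * (q : ℤ) ^ β j))]
      apply Finset.sum_congr rfl
      intro j _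
      have h2 : (q : ℤ) ^ β (σ j) = (q : ℤ) ^ b * (q : ℤ) ^ (β (σ j) - b) := by
        rw [← pow_add, Nat.add_sub_cancel' (hmin _)]
      rw [h2]
      ring
    rw [← h1, hqKZ] at hx
    exact Int.dvd_of_mul_dvd_mul_left (pow_ne_zero b hqZ) hx
  · have hqb : (0 : ℝ) < (q : ℝ) ^ b := by positivity
    rw [hx', hqK] at hxle
    push_cast at hxle
    rw [abs_mul, abs_of_pos hqb, mul_assoc] at hxle
    exact le_of_mul_le_mul_left hxle hqb

/-- divisibility forces a large factor -/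
lemma dvd_big {p q : ℕ} [Fact (Two p)] [Fact (Two q)] (hpq : p.Coprime q) {δ : ℝ} (hδ : 0 < δ) {N : ℕ}
    {a b c : ℕ}
    {lam P : ℤ} (hlam : lam ≠ 0) (hP : P ≠ 0) (h : (p : ℤ) ^ b ∣ lam * ((p : ℤ) ^ a * (q : ℤ) ^ c) * P)
    (hab : (a : ℝ) + δ * N ≤ b) (hle : |(lam : ℝ)| ≤ Real.exp (δ / 4 * N)) :
    Real.exp (δ / 4 * N) ≤ |(P : ℝ)| := by
  have hp : Two p := Fact.out
  have hq : Two q := Fact.out
  have hcop : p.Coprime q := hpq
  have hN0 : (0 : ℝ) ≤ N := Nat.cast_nonneg _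
  have hab' : a ≤ b := by
    have : (a : ℝ) ≤ b := by nlinarith
    exact_mod_cast this
  have hp0 : (0 : ℝ) < p := by exact_mod_cast hp.pos
  have h1 : (p : ℤ) ^ (b - a) ∣ lam * P := by
    have e1 : (p : ℤ) ^ b = (p : ℤ) ^ a * (p : ℤ) ^ (b - a) := by
      rw [← pow_add]; congr 1; omega
    have e2 : lam * ((p : ℤ) ^ a * (q : ℤ) ^ c) * P = (p : ℤ) ^ a * ((q : ℤ) ^ c * (lam * P)) := by
      ring
    rw [e1, e2] at h
    have h2 := Int.dvd_of_mul_dvd_mul_left (pow_ne_zero a (by exact_mod_cast hp.ne_zero)) h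
    apply IsCoprime.dvd_of_dvd_mul_left _ h2
    apply IsCoprime.pow
    exact Nat.isCoprime_iff_coprime.2 hcop
  have h3 := Int.le_of_dvd (abs_pos.2 (mul_ne_zero hlam hP)) ((dvd_abs _ _).2 h1)
  have h4 : (p : ℝ) ^ (b - a) ≤ |(lam : ℝ)| * |(P : ℝ)| := by
    rw [← abs_mul]
    exact_mod_cast h3
  have h5 : Real.exp (δ / 2 * N) ≤ (p : ℝ) ^ (b - a) := by
    have h6 : (p : ℝ) ^ (b - a) = Real.exp ((b - a : ℕ) * Real.log p) := by
      rw [Real.exp_nat_mul, Real.exp_log hp0]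
    rw [h6]
    apply Real.exp_le_exp.2
    have h7 : (1 / 2 : ℝ) ≤ Real.log p := by
      have h8 : Real.log 2 ≤ Real.log p := Real.log_le_log (by norm_num) (by exact_mod_cast hp.two_le)
      have := Real.log_two_gt_d9
      linarith
    have h9 : δ * N ≤ ((b - a : ℕ) : ℝ) := by
      rw [Nat.cast_sub hab']; linarith
    have h10 : 0 ≤ δ * N := by positivity
    nlinarith
  have h6 : Real.exp (δ / 2 * N) = Real.exp (δ / 4 * N) * Real.exp (δ / 4 * N) := by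
    rw [← Real.exp_add]; congr 1; ring
  have h7 : Real.exp (δ / 4 * N) * Real.exp (δ / 4 * N) ≤ Real.exp (δ / 4 * N) * |(P : ℝ)| := by
    rw [← h6]
    refine h5.trans (h4.trans ?_)
    exact mul_le_mul_of_nonneg_right hle (abs_nonneg _)
  exact le_of_mul_le_mul_left h7 (Real.exp_pos _)


/-- the height lemma -/
theorem heights2 {p q : ℕ} [Fact (Two p)] [Fact (Two q)] (hpq : p.Coprime q)
    (s : ℕ) (δ : ℝ) (hδ : 0 < δ) :
    ∃ (j1 j2 : Fin (s + 2)), j1 ≠ 1 ∧ j1 ≠ j2 ∧ ∀ N : ℕ, 8 / δ ≤ N →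
      ∀ (n K : ℕ) (β : Fin (s + 1) → ℕ), β 0 = 0 → Adm2 p q (s + 1) δ N n K β →
      ∀ (lam : Fin (s + 1) → ℤ) (x : ℤ), (∀ i, lam i ≠ 0) →
      (∀ i, |(lam i : ℝ)| ≤ Real.exp (δ / 8 * N)) →
      (q : ℤ) ^ K ∣ x + ∑ j, lam j * ((p : ℤ) ^ n * (q : ℤ) ^ β j) →
      |(x : ℝ)| ≤ (q : ℝ) ^ K * Real.exp (-(δ * N)) →
      (Fin.cons x lam : Fin (s + 2) → ℤ) j1 ≠ 0 ∧ ∀ P Q : ℤ, Q ≠ 0 →
        (Fin.cons x (fun i => lam i * ((p : ℤ) ^ n * (q : ℤ) ^ β i)) : Fin (s + 2) → ℤ) j1 * P =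
          -((Fin.cons x (fun i => lam i * ((p : ℤ) ^ n * (q : ℤ) ^ β i)) : Fin (s + 2) → ℤ) j2 * Q) →
        N / (max 1 (8 / δ)) ≤ Real.log (max |(P : ℝ)| |(Q : ℝ)|) := by
  have hp : Two p := Fact.out
  have hq : Two q := Fact.out
  have hp0 : (0 : ℝ) < p := by exact_mod_cast hp.pos
  have hq0 : (0 : ℝ) < q := by exact_mod_cast hq.pos
  have hpZ : (p : ℤ) ≠ 0 := by exact_mod_cast hp.ne_zero
  have hqZ : (q : ℤ) ≠ 0 := by exact_mod_cast hq.ne_zero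
  have hfin : ∀ (N : ℕ) (P Q : ℤ), Real.exp (δ / 8 * N) ≤ max |(P : ℝ)| |(Q : ℝ)| →
      N / (max 1 (8 / δ)) ≤ Real.log (max |(P : ℝ)| |(Q : ℝ)|) := by
    intro N P Q hmax
    have hN0 : (0 : ℝ) ≤ N := Nat.cast_nonneg _
    have h7 : (N : ℝ) / max 1 (8 / δ) ≤ δ / 8 * N := by
      rw [div_le_iff₀ (by positivity)]
      have h8 : 8 / δ ≤ max 1 (8 / δ) := le_max_right _ _
      have h9 : δ / 8 * (8 / δ) = 1 := by field_simp
      calc (N : ℝ) = δ / 8 * N * (8 / δ) := by linear_combination (-(N : ℝ)) * h9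
        _ ≤ δ / 8 * N * max 1 (8 / δ) := mul_le_mul_of_nonneg_left h8 (by positivity)
    refine le_trans h7 ?_
    rw [Real.le_log_iff_exp_le (lt_of_lt_of_le (Real.exp_pos _) hmax)]
    exact hmax
  have hle8 : ∀ N : ℕ, Real.exp (δ / 8 * N) ≤ Real.exp (δ / 4 * N) := by
    intro N
    apply Real.exp_le_exp.2
    have hN0 : (0 : ℝ) ≤ N := Nat.cast_nonneg _
    nlinarith
  rcases Nat.eq_zero_or_pos s with hs | hs
  · subst hs
    refine ⟨0, 1, by simp, by simp, ?_⟩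
    intro N hN n K β hβ0 hadm lam x hlam hle hxq hxle
    have hN0 : (0 : ℝ) ≤ N := Nat.cast_nonneg _
    rw [Fin.sum_univ_one, hβ0, pow_zero, mul_one] at hxq
    have hK0 : ((0 : ℕ) : ℝ) + δ * N ≤ K := by
      have := hadm.2.2.2.1 0
      rwa [hβ0] at this
    have hδN1 : 0 < δ * N := by
      rw [div_le_iff₀ hδ] at hN
      linarith
    have hx0 : x ≠ 0 := by
      rintro rfl
      rw [zero_add] at hxq
      have h1 := dvd_big (p := q) (q := p) (Nat.Coprime.symm hpq) hδ (N := N) (a := 0) (b := K)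
        (c := n) (hlam 0) (one_ne_zero) (by rw [mul_one, pow_zero, one_mul]; exact hxq)
        hK0 ((hle 0).trans (hle8 N))
      rw [Int.cast_one, abs_one] at h1
      have h2 : 0 < δ / 4 * N := by linarith
      have := Real.one_lt_exp_iff.2 h2
      linarith
    refine ⟨hx0, ?_⟩
    intro P Q hQ hPQ
    apply hfin
    have hPQ' : x * P = -(lam 0 * (p : ℤ) ^ n * Q) := by
      have h1 : (Fin.cons x (fun i => lam i * ((p : ℤ) ^ n * (q : ℤ) ^ β i)) : Fin 2 → ℤ) 1 =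
        lam 0 * ((p : ℤ) ^ n * (q : ℤ) ^ β 0) := rfl
      have h2 : (Fin.cons x (fun i => lam i * ((p : ℤ) ^ n * (q : ℤ) ^ β i)) : Fin 2 → ℤ) 0 = x := rfl
      rw [h1, h2, hβ0, pow_zero, mul_one] at hPQ
      exact hPQ
    obtain ⟨C, hC⟩ := hxq
    have hxx : x = (q : ℤ) ^ K * C - lam 0 * (p : ℤ) ^ n := by linarith
    have hCne : C ≠ 0 := by
      rintro rfl
      rw [mul_zero, zero_sub] at hxx
      have h1 : |(x : ℝ)| = |(lam 0 : ℝ)| * (p : ℝ) ^ n := by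
        rw [hxx]
        push_cast
        rw [abs_neg, abs_mul, abs_of_pos (by positivity : (0 : ℝ) < (p : ℝ) ^ n)]
      have h2 : (1 : ℝ) ≤ |(lam 0 : ℝ)| := by
        have := Int.one_le_abs (hlam 0)
        exact_mod_cast this
      have h3 : (q : ℝ) ^ K ≤ |(x : ℝ)| := by
        rw [h1]
        have h4 : (0 : ℝ) < (p : ℝ) ^ n := by positivity
        have h5 := hadm.2.2.1
        nlinarith
      have h6 : Real.exp (-(δ * N)) < 1 := by
        rw [Real.exp_lt_one_iff]; linarith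
      have h7 : (0 : ℝ) < (q : ℝ) ^ K := by positivity
      nlinarith
    have hdiff : P - Q ≠ 0 := by
      intro h0
      have h1 : P = Q := by linarith
      rw [h1, hxx] at hPQ'
      have h2 : (q : ℤ) ^ K * C * Q = 0 := by linear_combination hPQ'
      exact mul_ne_zero (mul_ne_zero (pow_ne_zero _ hqZ) hCne) hQ h2
    have h1 := dvd_big (p := q) (q := p) (Nat.Coprime.symm hpq) hδ (N := N) (a := 0) (b := K)
        (c := n) (hlam 0) hdiff (by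
          rw [pow_zero, one_mul]
          refine ⟨C * P, ?_⟩
          rw [hxx] at hPQ'
          linear_combination (-1 : ℤ) * hPQ')
        hK0 ((hle 0).trans (hle8 N))
    have h2 : 2 ≤ Real.exp (δ / 8 * N) := by
      apply Pool.Agent.H547R3.Sub.two_le_exp'
      rw [div_le_iff₀ hδ] at hN
      linarith
    have h3 : |((P - Q : ℤ) : ℝ)| ≤ 2 * max |(P : ℝ)| |(Q : ℝ)| := by
      push_cast
      refine (abs_sub _ _).trans ?_
      have := le_max_left |(P : ℝ)| |(Q : ℝ)|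
      have := le_max_right |(P : ℝ)| |(Q : ℝ)|
      linarith
    have h4 : Real.exp (δ / 4 * N) = Real.exp (δ / 8 * N) * Real.exp (δ / 8 * N) := by
      rw [← Real.exp_add]; congr 1; ring
    rw [h4] at h1
    have h5 := h1.trans h3
    have h6 : 0 < Real.exp (δ / 8 * N) := Real.exp_pos _
    nlinarith
  · set i2 : Fin (s + 1) := ⟨1, by omega⟩ with hi2
    have hne : i2 ≠ 0 := by
      intro h
      have := congrArg Fin.val h
      simp [hi2] at this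
    refine ⟨i2.succ, (0 : Fin (s + 1)).succ, ?_, ?_, ?_⟩
    · intro h
      exact hne (Fin.succ_injective _ h)
    · intro h
      exact hne (Fin.succ_injective _ h)
    · intro N hN n K β hβ0 hadm lam x hlam hle _ _
      simp only [Fin.cons_succ]
      refine ⟨hlam _, ?_⟩
      intro P Q hQ hPQ
      apply hfin
      have h1 := hadm.2.2.2.2 i2 0 hne
      rw [hβ0, Nat.cast_zero, sub_zero, abs_of_nonneg (Nat.cast_nonneg _)] at h1
      refine (hle8 N).trans ((dvd_big (p := q) (q := p) (Nat.Coprime.symm hpq) hδ (N := N) (a := β 0) (b := β i2)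
            (c := n) (hlam 0) hQ ?_
            (by rw [hβ0, Nat.cast_zero, zero_add]; exact h1)
            ((hle 0).trans (hle8 N))).trans (le_max_right _ _))
      refine ⟨-(lam i2 * (p : ℤ) ^ n * P), ?_⟩
      linear_combination hPQ

end Pool.Agent.TH796.CB
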