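import Mathlib
import Pool.Agent.TH796.CB.Van
import Pool.Agent.H547R3.Sub.Est2
import Pool.Agent.H393R2.Codim

set_option autoImplicit false

open Finset

namespace Pool.Agent.TH796.CB

open Pool.Agent.H547R3.Sub (est2)
open Pool.Agent.H393R2 (AuxPolyStmt RothStmt exists_tau exists_degrees exists_fast dJ Dset mem_Dset Sk
  span_perp reduce_pair)

theorem core2 (hAux : AuxPolyStmt) (hRoth : RothStmt) (n' : ℕ) (hn : 1 ≤ n') {p q : ℕ}
    [Fact (Two p)] [Fact (Two q)] (hpq : p.Coprime q)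
    (Y j1 j2 : Fin (n' + 1)) (hj1 : j1 ≠ Y) (hj12 : j1 ≠ j2) (c γ : ℝ) (hc : 1 ≤ c) (hγ : 0 < γ)
    (N : ℕ → ℝ) (hN : Filter.Tendsto N Filter.atTop Filter.atTop) (hN0 : ∀ t, 0 < N t)
    (α β : ℕ → Fin (n' + 1) → ℕ) (hαY : ∀ t, α t Y = 0) (hβY : ∀ t, β t Y = 0) (L K : ℕ → ℕ)
    (hαL : ∀ t l, α t l ≤ L t) (hβK : ∀ t l, β t l ≤ K t)
    (hL : ∀ t, (L t : ℝ) * Real.log p ≤ c * N t) (hK : ∀ t, (K t : ℝ) * Real.log q ≤ c * N t)
    (x : ℕ → Fin (n' + 1) → ℤ) (A : ℕ → Fin (n' + 1) → ℝ) (hApos : ∀ t l, 0 < A t l)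
    (hA : ∀ t l, |-Real.log (A t l)| ≤ c * N t)
    (hprod : ∀ t, γ * N t ≤ ∑ l, -Real.log (A t l))
    (w : ℕ → Fin n' → Fin (n' + 1) → ℤ) (hw : ∀ t, LinearIndependent ℤ (w t))
    (horth : ∀ t i, ∑ l, x t l * w t i l = 0)
    (hwp : ∀ t i l, l ≠ Y → (p : ℤ) ^ L t ∣ w t i l)
    (hwq : ∀ t i l, l ≠ Y → (q : ℤ) ^ K t ∣ w t i l - (p : ℤ) ^ α t l * (q : ℤ) ^ β t l * w t i Y)
    (hbd : ∀ t i l, |(w t i l : ℝ)| ≤ A t l * (if l = Y then 1 else (p : ℝ) ^ L t * (q : ℝ) ^ K t))
    (hx1 : ∀ t, x t j1 ≠ 0) (P Q : ℕ → ℤ) (hPQ : ∀ t, IsCoprime (P t) (Q t))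
    (hrat : ∀ t, x t j1 * ((p : ℤ) ^ α t j1 * (q : ℤ) ^ β t j1) * P t =
      -(x t j2 * ((p : ℤ) ^ α t j2 * (q : ℤ) ^ β t j2) * Q t))
    (hq0 : ∀ t, Q t ≠ 0)
    (hht : ∀ t, N t / c ≤ Real.log (max |(P t : ℝ)| |(Q t : ℝ)|)) : False := by
  have hpP : Two p := Fact.out
  have hqP : Two q := Fact.out
  have hp0 : (0 : ℝ) < p := by exact_mod_cast hpP.pos
  have hq00 : (0 : ℝ) < q := by exact_mod_cast hqP.pos
  have hlogp : 0 < Real.log p := Real.log_pos (by exact_mod_cast hpP.one_lt)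
  have hlogq : 0 < Real.log q := Real.log_pos (by exact_mod_cast hqP.one_lt)
  have hc0 : (0 : ℝ) < c := by linarith
  set T : ℕ → Fin (n' + 1) → ℝ := fun t l => (p : ℝ) ^ α t l * (q : ℝ) ^ β t l with hT
  have hTpos : ∀ t l, 0 < T t l := fun t l => by simp only [hT]; positivity
  -- compactness
  obtain ⟨⟨aa, μ, ν⟩, hmem, φ, hφ, hlim⟩ : ∃ a ∈ (Set.pi Set.univ (fun _ : Fin (n' + 1) =>
      Set.Icc (-c) c)) ×ˢ ((Set.pi Set.univ (fun _ : Fin (n' + 1) => Set.Icc (0 : ℝ) c)) ×ˢ
        (Set.pi Set.univ (fun _ : Fin (n' + 1) => Set.Icc (0 : ℝ) c))),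
      ∃ φ : ℕ → ℕ, StrictMono φ ∧
        Filter.Tendsto ((fun t => ((fun l => -Real.log (A t l) / N t), (fun l =>
          ((L t - α t l : ℕ) : ℝ) * Real.log p / N t), (fun l =>
          ((K t - β t l : ℕ) : ℝ) * Real.log q / N t)) :
          ℕ → (Fin (n' + 1) → ℝ) × ((Fin (n' + 1) → ℝ) × (Fin (n' + 1) → ℝ))) ∘ φ)
          Filter.atTop (nhds a) := by
    apply IsCompact.tendsto_subseq
    · apply IsCompact.prod
      · exact isCompact_univ_pi (fun _ => isCompact_Icc)
      · apply IsCompact.prod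
        · exact isCompact_univ_pi (fun _ => isCompact_Icc)
        · exact isCompact_univ_pi (fun _ => isCompact_Icc)
    · intro t
      refine ⟨?_, ?_, ?_⟩
      · intro l _
        have h1 := abs_le.mp (hA t l)
        simp only [Set.mem_Icc]
        constructor
        · rw [le_div_iff₀ (hN0 t)]; linarith [h1.1]
        · rw [div_le_iff₀ (hN0 t)]; linarith [h1.2]
      · intro l _
        simp only [Set.mem_Icc]
        constructor
        · have := hN0 t; positivity
        · rw [div_le_iff₀ (hN0 t)]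
          refine le_trans ?_ (hL t)
          apply mul_le_mul_of_nonneg_right _ hlogp.le
          exact_mod_cast Nat.sub_le _ _
      · intro l _
        simp only [Set.mem_Icc]
        constructor
        · have := hN0 t; positivity
        · rw [div_le_iff₀ (hN0 t)]
          refine le_trans ?_ (hK t)
          apply mul_le_mul_of_nonneg_right _ hlogq.le
          exact_mod_cast Nat.sub_le _ _
  have hα' : ∀ l, |aa l| ≤ c := by
    intro l
    have := hmem.1 l (Set.mem_univ _)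
    simp only [Set.mem_Icc] at this
    exact abs_le.mpr this
  have hμ' : ∀ l, |μ l| ≤ c := by
    intro l
    have := hmem.2.1 l (Set.mem_univ _)
    simp only [Set.mem_Icc] at this
    rw [abs_of_nonneg this.1]; exact this.2
  have hν' : ∀ l, |ν l| ≤ c := by
    intro l
    have := hmem.2.2 l (Set.mem_univ _)
    simp only [Set.mem_Icc] at this
    rw [abs_of_nonneg this.1]; exact this.2
  have hlim1 : ∀ l, Filter.Tendsto (fun t => -Real.log (A (φ t) l) / N (φ t)) Filter.atTop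
      (nhds (aa l)) := by
    intro l
    have h1 := (continuous_fst.tendsto _).comp hlim
    exact (continuous_apply l).continuousAt.tendsto.comp h1
  have hlim2 : ∀ l, Filter.Tendsto (fun t => ((L (φ t) - α (φ t) l : ℕ) : ℝ) * Real.log p /
      N (φ t)) Filter.atTop (nhds (μ l)) := by
    intro l
    have h1 := (continuous_fst.tendsto _).comp ((continuous_snd.tendsto _).comp hlim)
    exact (continuous_apply l).continuousAt.tendsto.comp h1
  have hlim3 : ∀ l, Filter.Tendsto (fun t => ((K (φ t) - β (φ t) l : ℕ) : ℝ) * Real.log q /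
      N (φ t)) Filter.atTop (nhds (ν l)) := by
    intro l
    have h1 := (continuous_snd.tendsto _).comp ((continuous_snd.tendsto _).comp hlim)
    exact (continuous_apply l).continuousAt.tendsto.comp h1
  have hγα : γ ≤ ∑ l, aa l := by
    have h1 : Filter.Tendsto (fun t => ∑ l, -Real.log (A (φ t) l) / N (φ t)) Filter.atTop
      (nhds (∑ l, aa l)) := tendsto_finset_sum _ (fun l _ => hlim1 l)
    apply ge_of_tendsto' h1
    intro t
    rw [← Finset.sum_div, le_div_iff₀ (hN0 _)]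
    exact hprod _
  -- choice of τ
  obtain ⟨τ, hτ0, hτ12, hτγ⟩ := exists_tau
    (5 * ((n' + 1 : ℕ) : ℝ) * ((1 + c) + c * (((n' + 1 : ℕ) : ℝ) + 1)))
    (γ / (4 * ((n' + 1 : ℕ) : ℝ))) (by positivity) (by positivity)
  obtain ⟨C, hC, m0, haux⟩ := hAux (n' + 1) (by omega) Y 1 isIntegral_one τ hτ0
  set m := max m0 1 with hmdef
  have hm : 0 < m := by omega
  obtain ⟨ω, hω, hroth⟩ := hRoth m τ hτ0
  -- eventually close
  have hev : ∀ᶠ t in Filter.atTop, ∀ l, |-Real.log (A (φ t) l) / N (φ t) - aa l| ≤ τ ∧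
      |((L (φ t) - α (φ t) l : ℕ) : ℝ) * Real.log p / N (φ t) - μ l| ≤ τ ∧
      |((K (φ t) - β (φ t) l : ℕ) : ℝ) * Real.log q / N (φ t) - ν l| ≤ τ := by
    rw [Filter.eventually_all]
    intro l
    have h1 := (Metric.tendsto_nhds.mp (hlim1 l)) τ hτ0
    have h2 := (Metric.tendsto_nhds.mp (hlim2 l)) τ hτ0
    have h2' := (Metric.tendsto_nhds.mp (hlim3 l)) τ hτ0
    filter_upwards [h1, h2, h2'] with t h3 h4 h5
    rw [Real.dist_eq] at h3 h4 h5
    exact ⟨h3.le, h4.le, h5.le⟩
  obtain ⟨T0, hT0⟩ := Filter.eventually_atTop.mp hev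
  set Q0 : ℝ := Real.log (2 ^ (n' + 1) * C * 2 * ((n' + 1 : ℕ) : ℝ)) with hQ0def
  set Ns : ℝ := max 1 (max (max (Q0 * (4 * ((n' + 1 : ℕ) : ℝ)) / γ)
    ((Real.log p + Real.log q) * (4 * ((n' + 1 : ℕ) : ℝ)) / γ)) (max (2 * c / ω)
    (Real.log C * m * (2 * c) / ω))) with hNs
  have hNs1 : 1 ≤ Ns := le_max_left _ _
  have hNs0 : 0 < Ns := by linarith
  have hNs2 : Q0 * (4 * ((n' + 1 : ℕ) : ℝ)) / γ ≤ Ns :=
    le_trans (le_trans (le_max_left _ _) (le_max_left _ _)) (le_max_right _ _)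
  have hNs2' : (Real.log p + Real.log q) * (4 * ((n' + 1 : ℕ) : ℝ)) / γ ≤ Ns :=
    le_trans (le_trans (le_max_right _ _) (le_max_left _ _)) (le_max_right _ _)
  have hNs3 : 2 * c / ω ≤ Ns :=
    le_trans (le_trans (le_max_left _ _) (le_max_right _ _)) (le_max_right _ _)
  have hNs4 : Real.log C * m * (2 * c) / ω ≤ Ns :=
    le_trans (le_trans (le_max_right _ _) (le_max_right _ _)) (le_max_right _ _)
  obtain ⟨f, hf1, hf2, hf3⟩ := exists_fast (fun t => N (φ t)) (fun t => hN0 _)
    (hN.comp hφ.tendsto_atTop) T0 Ns (max 1 (2 / ω)) (le_max_left _ _)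
  set tt : Fin m → ℕ := fun h => φ (f h) with htt
  have hNh0 : ∀ h, 0 < N (tt h) := fun h => hN0 _
  obtain ⟨R0, r, hR0, hr, hrN1, hrN2⟩ := exists_degrees hm (fun h => N (tt h)) hNh0 τ hτ0 hτ12
  obtain ⟨cf, hcf0, hcfC, hcfs, hcfb⟩ := haux m (le_max_left _ _) r hr
  have hNmin : ∀ h, Ns ≤ N (tt h) := fun h => hf2 _
  have hrle : ∀ h, (r h : ℝ) ≤ R0 / N (tt h) := by
    intro h; rw [le_div_iff₀ (hNh0 h)]; exact hrN2 h
  -- reduce_pair input
  have hvan : ∀ k ∈ {k : Fin m → ℕ | ∑ h, (k h : ℝ) / (r h : ℝ) < τ},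
      ∀ W : Fin m → Fin (n' + 1) → ℝ,
        (∀ h, ∑ l, ((x (tt h) l : ℝ) * T (tt h) l) * W h l = 0) →
        Sk r j1 k cf W = 0 := by
    intro k hk W hW
    have hscale : ∀ (y : ℝ) (y0 : ℝ) (h : Fin m), |y / N (tt h) - y0| ≤ τ →
        |y - y0 * N (tt h)| ≤ τ * N (tt h) := by
      intro y y0 h h1
      have h2 := hNh0 h
      have h3 : y - y0 * N (tt h) = (y / N (tt h) - y0) * N (tt h) := by field_simp
      rw [h3, abs_mul, abs_of_pos h2]
      exact mul_le_mul_of_nonneg_right h1 h2.le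
    obtain ⟨E, F, hE1, hF1, hE2⟩ := est2 hm (by omega : 1 ≤ n' + 1) r hr Y j1 k cf C hC hcfC τ
      hτ0 hcfs hcfb hk p q hpP.two_le hqP.two_le (fun h l => α (tt h) l) (fun h l => β (tt h) l)
      (fun h => L (tt h)) (fun h => K (tt h)) (fun h l => hαL _ _) (fun h l => hβK _ _)
      (fun h l => A (tt h) l) (fun h l => hApos _ _) (fun h => N (tt h)) Ns hNs0 hNmin R0 hR0
      hrN1 hrN2 aa μ ν c γ hα' hμ' hν' hγα hγ
      (by
        intro h l
        have h1 := hscale _ _ h (hT0 (f h) (hf1 h) l).1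
        rw [abs_sub_comm] at h1
        have h2 : Real.log (A (tt h) l) - -aa l * N (tt h) =
          aa l * N (tt h) - -Real.log (A (tt h) l) := by ring
        show |Real.log (A (tt h) l) - -aa l * N (tt h)| ≤ τ * N (tt h)
        rw [h2]; exact h1)
      (fun h l => hscale _ _ h (hT0 (f h) (hf1 h) l).2.1)
      (fun h l => hscale _ _ h (hT0 (f h) (hf1 h) l).2.2)
      (by
        refine le_trans (le_of_eq ?_) hτγ
        ring)
      (by
        rw [div_le_iff₀ hNs0]
        rw [div_le_iff₀ hγ] at hNs2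
        have h5 : (0 : ℝ) < 4 * ((n' + 1 : ℕ) : ℝ) := by positivity
        rw [div_mul_eq_mul_div, le_div_iff₀ h5]
        linarith)
      (by
        rw [div_le_iff₀ hNs0]
        rw [div_le_iff₀ hγ] at hNs2'
        have h5 : (0 : ℝ) < 4 * ((n' + 1 : ℕ) : ℝ) := by positivity
        rw [div_mul_eq_mul_div, le_div_iff₀ h5]
        linarith)
    have hSV := Sk_vanish2 hpP hqP hpq r Y j1 hj1 k cf (fun h l => α (tt h) l) (fun h l => β (tt h) l)
      (fun h => hαY _) (fun h => hβY _) (fun h => L (tt h)) (fun h => K (tt h))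
      (fun h l => hαL _ _) (fun h l => hβK _ _) (fun h => w (tt h))
      (fun h i l hl => hwp _ i l hl) (fun h i l hl => hwq _ i l hl)
      (fun h l => ((n' + 1 : ℕ) : ℝ) * A (tt h) l * (if l = Y then 1 else
        (p : ℝ) ^ (L (tt h) - α (tt h) l) * (q : ℝ) ^ (K (tt h) - β (tt h) l)))
      (by
        intro h l
        have hTl : (0 : ℝ) < (p : ℝ) ^ α (tt h) l * (q : ℝ) ^ β (tt h) l := hTpos (tt h) l
        calc ∑ i, |(w (tt h) i l : ℝ) / ((p : ℝ) ^ α (tt h) l * (q : ℝ) ^ β (tt h) l)|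
            ≤ ∑ _i : Fin n', A (tt h) l * (if l = Y then 1 else
              (p : ℝ) ^ (L (tt h) - α (tt h) l) * (q : ℝ) ^ (K (tt h) - β (tt h) l)) := by
              apply Finset.sum_le_sum
              intro i _
              rw [abs_div, abs_of_pos hTl, div_le_iff₀ hTl]
              refine (hbd _ _ _).trans (le_of_eq ?_)
              by_cases hl : l = Y
              · subst hl
                rw [hαY, hβY, if_pos rfl, if_pos rfl]; simp
              · rw [if_neg hl, if_neg hl]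
                have e1 : (p : ℝ) ^ L (tt h) = (p : ℝ) ^ (L (tt h) - α (tt h) l) *
                    (p : ℝ) ^ α (tt h) l := by
                  rw [← pow_add, Nat.sub_add_cancel (hαL _ _)]
                have e2 : (q : ℝ) ^ K (tt h) = (q : ℝ) ^ (K (tt h) - β (tt h) l) *
                    (q : ℝ) ^ β (tt h) l := by
                  rw [← pow_add, Nat.sub_add_cancel (hβK _ _)]
                rw [e1, e2]; ring
          _ = (n' : ℝ) * (A (tt h) l * (if l = Y then 1 else
              (p : ℝ) ^ (L (tt h) - α (tt h) l) * (q : ℝ) ^ (K (tt h) - β (tt h) l))) := by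
              rw [Finset.sum_const, Finset.card_univ, Fintype.card_fin, nsmul_eq_mul]
          _ ≤ ((n' + 1 : ℕ) : ℝ) * A (tt h) l * (if l = Y then 1 else
              (p : ℝ) ^ (L (tt h) - α (tt h) l) * (q : ℝ) ^ (K (tt h) - β (tt h) l)) := by
              rw [mul_assoc]
              apply mul_le_mul_of_nonneg_right
              · push_cast; linarith
              · have := hApos (tt h) l
                split_ifs <;> positivity)
      E F hE1 hF1 hE2
    -- span
    have hsp : ∀ h, ∃ u : Fin n' → ℝ, ∀ l, T (tt h) l * W h l =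
        ∑ i, u i * (w (tt h) i l : ℝ) := by
      intro h
      apply span_perp n' (x (tt h)) _ (w (tt h)) (hw _) (horth _)
      · rw [← hW h]
        apply Finset.sum_congr rfl
        intro l _
        ring
      · intro h0
        apply hx1 (tt h)
        rw [h0]; rfl
    choose u hu using hsp
    rw [← hSV u]
    congr 1
    funext h l
    have hbe : T (tt h) l ≠ 0 := (hTpos _ _).ne'
    have h1 := hu h l
    have h2 : W h l = (T (tt h) l * W h l) / T (tt h) l := by
      field_simp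
    rw [h2, h1, Finset.sum_div]
    apply Finset.sum_congr rfl
    intro i _
    rw [mul_div_assoc]
  obtain ⟨c', hc'0, hc'H, hc'v⟩ := reduce_pair r j1 j2 hj12
    {k : Fin m → ℕ | ∑ h, (k h : ℝ) / (r h : ℝ) < τ} cf (C ^ (∑ h, r h)) (by positivity) hcf0 hcfC
    (fun h l => (x (tt h) l : ℝ) * T (tt h) l)
    (by
      intro h
      have h1 : (x (tt h) j1 : ℝ) ≠ 0 := by exact_mod_cast hx1 _
      exact mul_ne_zero h1 (hTpos _ _).ne') hvan
  have hτ1 : (1 - τ) ≥ 1 / 2 := by linarith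
  obtain ⟨k, hk1, hk2⟩ := hroth r (R0 / (2 * c)) hm hr
    (by
      intro i j hij
      have h1 := hrle j
      have h2 := hrN1 i
      have h3 := hf3 i j (by exact_mod_cast hij)
      have h4 : (2 / ω) * N (tt i) ≤ N (tt j) := by
        refine le_trans ?_ h3
        exact mul_le_mul_of_nonneg_right (le_max_right _ _) (hNh0 i).le
      have h5 : R0 / N (tt j) ≤ R0 / ((2 / ω) * N (tt i)) := by
        apply div_le_div_of_nonneg_left hR0.le _ h4
        have := hNh0 i; positivity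
      have h6 : R0 / ((2 / ω) * N (tt i)) = ω * ((1/2) * R0 / N (tt i)) := by
        have := (hNh0 i).ne'
        field_simp
      have h7 : (1/2) * R0 / N (tt i) ≤ r i := by
        rw [div_le_iff₀ (hNh0 i)]
        refine le_trans ?_ h2
        exact mul_le_mul_of_nonneg_right hτ1 hR0.le
      calc (r j : ℝ) ≤ R0 / N (tt j) := h1
        _ ≤ ω * ((1/2) * R0 / N (tt i)) := by rw [← h6]; exact h5
        _ ≤ ω * r i := mul_le_mul_of_nonneg_left h7 hω.le)
    (by
      intro h
      refine le_trans (hrle h) ?_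
      rw [div_le_iff₀ (hNh0 h)]
      have h1 : 2 * c / ω ≤ N (tt h) := le_trans hNs3 (hNmin h)
      rw [div_le_iff₀ hω] at h1
      have h2 : ω * (R0 / (2 * c)) * N (tt h) = R0 * (N (tt h) * ω) / (2 * c) := by
        field_simp
      rw [h2, le_div_iff₀ (by positivity)]
      exact mul_le_mul_of_nonneg_left h1 hR0.le)
    (fun h => P (tt h)) (fun h => Q (tt h)) (fun h => hPQ _) (fun h => hq0 _)
    (by
      intro h
      have h1 := hht (tt h)
      have h2 : R0 / (2 * c) ≤ r h * (N (tt h) / c) := by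
        rw [← mul_div_assoc, div_le_div_iff₀ (by positivity) hc0]
        have h3 : R0 / 2 ≤ r h * N (tt h) := by
          refine le_trans ?_ (hrN1 h)
          nlinarith
        nlinarith
      refine le_trans h2 ?_
      exact mul_le_mul_of_nonneg_left h1 (by positivity))
    c' hc'0
    (by
      intro a ha
      refine le_trans (hc'H a ha) ?_
      have hCpos : 0 < C := by linarith
      have h1 : C ^ (∑ h, r h) = Real.exp (Real.log C * ((∑ h, r h : ℕ) : ℝ)) := by
        rw [← Real.rpow_natCast, Real.rpow_def_of_pos hCpos]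
      rw [h1, Real.exp_le_exp]
      have h2 : ((∑ h, r h : ℕ) : ℝ) ≤ m * (R0 / Ns) := by
        push_cast
        calc ∑ h, (r h : ℝ) ≤ ∑ _h : Fin m, R0 / Ns := by
              apply Finset.sum_le_sum
              intro h _
              refine le_trans (hrle h) ?_
              exact div_le_div_of_nonneg_left hR0.le hNs0 (hNmin h)
          _ = m * (R0 / Ns) := by
              rw [Finset.sum_const, Finset.card_univ, Fintype.card_fin, nsmul_eq_mul]
      have h3 : 0 ≤ Real.log C := Real.log_nonneg hC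
      refine le_trans (mul_le_mul_of_nonneg_left h2 h3) ?_
      rw [div_le_iff₀ hω] at hNs4
      have h4 : Real.log C * (↑m * (R0 / Ns)) = (Real.log C * m * (2 * c)) * R0 / (Ns * (2 * c)) := by
        field_simp
      rw [h4, div_le_iff₀ (by positivity)]
      have h5 : ω * (R0 / (2 * c)) * (Ns * (2 * c)) = Ns * ω * R0 := by
        field_simp
      rw [h5]
      exact mul_le_mul_of_nonneg_right hNs4 hR0.le)
  apply hk2
  have h1 := hc'v k hk1
  rw [← h1]
  apply Finset.sum_congr rfl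
  intro a _
  congr 1
  apply Finset.prod_congr rfl
  intro h _
  congr 2
  have hq : (Q (tt h) : ℝ) ≠ 0 := by exact_mod_cast hq0 _
  have hx : (x (tt h) j1 : ℝ) ≠ 0 := by exact_mod_cast hx1 _
  have hbe : T (tt h) j1 ≠ 0 := (hTpos _ _).ne'
  have h3 : (x (tt h) j1 : ℝ) * T (tt h) j1 * (P (tt h) : ℝ) =
      -((x (tt h) j2 : ℝ) * T (tt h) j2 * (Q (tt h) : ℝ)) := by
    simp only [hT]
    exact_mod_cast hrat (tt h)
  show (P (tt h) : ℝ) / (Q (tt h) : ℝ) = -((x (tt h) j2 : ℝ) * T (tt h) j2) /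
    ((x (tt h) j1 : ℝ) * T (tt h) j1)
  rw [div_eq_div_iff hq (mul_ne_zero hx hbe)]
  linarith

end Pool.Agent.TH796.CB
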