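import Mathlib
import Pool.Agent.TH796.CB.Core
import Pool.Agent.TH796.CB.Bad
import Pool.Agent.H393R2.ThmA
import Pool.Agent.H393R2.Glue814
import Pool.Agent.H393R2.Geom4

set_option autoImplicit false

open Finset

namespace Pool.Agent.TH796.CB

open Pool.Agent.H393R2 (AuxPolyStmt RothStmt GeomStmt geom_apply exists_pq
  auxPolyStmt rothStmt geometry)

theorem bad_step2 (hAux : AuxPolyStmt) (hRoth : RothStmt) (hGeom : GeomStmt) {p q : ℕ}
    [Fact (Two p)] [Fact (Two q)] (hpq : p.Coprime q) {s : ℕ}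
    (hIH : ∀ δ : ℝ, 0 < δ → ¬ Bad2 p q s δ) (δ : ℝ) (hδ : 0 < δ) :
    ¬ Bad2 p q (s + 1) δ := by
  intro hB
  have hp : Two p := Fact.out
  have hq : Two q := Fact.out
  have hcop : p.Coprime q := hpq
  have hp0 : (0 : ℝ) < p := by exact_mod_cast hp.pos
  have hq0' : (0 : ℝ) < q := by exact_mod_cast hq.pos
  have hpZ : (p : ℤ) ≠ 0 := by exact_mod_cast hp.ne_zero
  have hqZ : (q : ℤ) ≠ 0 := by exact_mod_cast hq.ne_zero
  have hlogp : 0 < Real.log p := Real.log_pos (by exact_mod_cast hp.one_lt)
  have hlogq : 0 < Real.log q := Real.log_pos (by exact_mod_cast hq.one_lt)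
  obtain ⟨ε1', hε1', N1, hgap⟩ := gap2 hpq δ (δ / 2) hδ (by positivity) hIH
  obtain ⟨εu, hεu, Nu, hunif⟩ := not_bad_iff2 (hIH δ hδ)
  obtain ⟨j1, j2, hj1, hj12, hheights⟩ := heights2 hpq s δ hδ
  obtain ⟨C, hC, hgeom⟩ := hGeom (s + 2) (by omega)
  set ε1 : ℝ := min ε1' (δ / 2) with hε1def
  have hε1 : 0 < ε1 := by rw [hε1def]; apply lt_min hε1'; positivity
  have hε11 : ε1 ≤ ε1' := min_le_left _ _
  have hε1δ : ε1 ≤ δ / 2 := min_le_right _ _
  set ε0 : ℝ := min (ε1 / 2) (min εu (δ / 8)) with hε0def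
  have hε0 : 0 < ε0 := by
    rw [hε0def]; apply lt_min (by positivity); apply lt_min hεu; positivity
  have hε01 : ε0 ≤ ε1 / 2 := min_le_left _ _
  have hε0u : ε0 ≤ εu := le_trans (min_le_right _ _) (min_le_left _ _)
  have hε0δ : ε0 ≤ δ / 8 := le_trans (min_le_right _ _) (min_le_right _ _)
  set Nmin : ℕ := max (max N1 Nu) (max 1 (max ⌈(4 * Real.log C + 1) / ε1⌉₊
    (max ⌈Real.log C + 1⌉₊ ⌈8 / δ⌉₊))) with hNmin
  have hdata := fun t : ℕ => hB.norm hδ ε0 hε0 (max t Nmin)
  choose Nt hNt nt Kt be hbe0 hadm lam hlam hle x hxq hxle using hdata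
  have hNt' : ∀ t, t ≤ Nt t := fun t => le_trans (le_max_left _ _) (hNt t)
  have hNm : ∀ t, Nmin ≤ Nt t := fun t => le_trans (le_max_right _ _) (hNt t)
  have hN1 : ∀ t, N1 ≤ Nt t := fun t => le_trans (by rw [hNmin]; simp) (hNm t)
  have hNu : ∀ t, Nu ≤ Nt t := fun t => le_trans (by rw [hNmin]; simp) (hNm t)
  have hN11 : ∀ t, 1 ≤ Nt t := fun t => le_trans (by rw [hNmin]; simp) (hNm t)
  have hNc1 : ∀ t, ((4 * Real.log C + 1) / ε1) ≤ Nt t := by
    intro t
    refine le_trans (Nat.le_ceil _) ?_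
    exact_mod_cast le_trans (by rw [hNmin]; simp) (hNm t)
  have hNc2 : ∀ t, (Real.log C + 1) ≤ Nt t := by
    intro t
    refine le_trans (Nat.le_ceil _) ?_
    exact_mod_cast le_trans (by rw [hNmin]; simp) (hNm t)
  have hNc3 : ∀ t, (8 / δ) ≤ Nt t := by
    intro t
    refine le_trans (Nat.le_ceil _) ?_
    exact_mod_cast le_trans (by rw [hNmin]; simp) (hNm t)
  have hNpos : ∀ t, (0 : ℝ) < Nt t := fun t => by exact_mod_cast hN11 t
  -- nonvanishing coefficients
  have hlamne : ∀ t i, lam t i ≠ 0 := by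
    intro t i h0
    have h2 : ∑ j, lam t j * ((p : ℤ) ^ nt t * (q : ℤ) ^ be t j) =
        ∑ k, lam t (i.succAbove k) * ((p : ℤ) ^ nt t *
          (q : ℤ) ^ be t (i.succAbove k)) := by
      rw [Fin.sum_univ_succAbove _ i, h0, zero_mul, zero_add]
    have h1 := hunif (Nt t) (hNu t) (nt t) (Kt t) (fun k => be t (i.succAbove k))
      ((hadm t).comp _ Fin.succAbove_right_injective) (fun k => lam t (i.succAbove k))
      (by
        intro hz
        apply hlam t
        funext l
        rcases Fin.eq_self_or_eq_succAbove i l with h1 | ⟨k, h1⟩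
        · rw [h1]; exact h0
        · rw [h1]; exact congrFun hz k)
      (by
        intro k
        refine le_trans (hle t _) ?_
        apply Real.exp_le_exp.mpr
        exact mul_le_mul_of_nonneg_right hε0u (hNpos t).le) (x t)
      (by rw [← h2]; exact hxq t)
    exact absurd (hxle t) (not_le.mpr h1)
  -- the CRT coefficients
  set g : ℕ → Fin (s + 1) → ℤ := fun t j => -((p : ℤ) ^ nt t * (q : ℤ) ^ be t j) with hg
  have hgq : ∀ t j, (q : ℤ) ^ Kt t ∣ g t j + (p : ℤ) ^ nt t * (q : ℤ) ^ be t j := fun t j => by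
    simp only [hg]
    rw [neg_add_cancel]
    exact dvd_zero _
  set DZ : ℕ → ℤ := fun t => (q : ℤ) ^ Kt t with hDZ
  set D : ℕ → ℝ := fun t => (q : ℝ) ^ Kt t with hD
  have hDpos : ∀ t, 0 < D t := fun t => by simp only [hD]; positivity
  have hDD : ∀ t, ((DZ t : ℤ) : ℝ) = D t := fun t => by simp only [hDZ, hD]; push_cast; rfl
  have hDZ0 : ∀ t, DZ t ≠ 0 := fun t => pow_ne_zero _ hqZ
  -- integrality of the first coordinate
  have hz : ∀ t, ∃ z : ℤ, x t - ∑ j, g t j * lam t j = DZ t * z := by
    intro t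
    have h1 : x t - ∑ j, g t j * lam t j =
        (x t + ∑ j, lam t j * ((p : ℤ) ^ nt t * (q : ℤ) ^ be t j)) -
        ∑ j, (g t j + (p : ℤ) ^ nt t * (q : ℤ) ^ be t j) * lam t j := by
      have : ∑ j, (g t j + (p : ℤ) ^ nt t * (q : ℤ) ^ be t j) * lam t j =
          ∑ j, g t j * lam t j + ∑ j, lam t j * ((p : ℤ) ^ nt t * (q : ℤ) ^ be t j) := by
        rw [← Finset.sum_add_distrib]
        apply Finset.sum_congr rfl
        intro j _; ring
      rw [this]; ring
    have h2 : (q : ℤ) ^ Kt t ∣ x t - ∑ j, g t j * lam t j := by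
      rw [h1]
      apply (hxq t).sub
      exact Finset.dvd_sum (fun j _ => (hgq t j).mul_right _)
    exact h2
  choose z hz using hz
  set θ : ℕ → Fin (s + 1) → ℝ := fun t j => (g t j : ℝ) / D t with hθ
  have hform : ∀ t (lam : Fin (s + 1) → ℤ) (P : ℤ), ∑ i, θ t i * (lam i : ℝ) - P =
      ((DZ t * (-P) + ∑ j, g t j * lam j : ℤ) : ℝ) / D t := by
    intro t lam P
    push_cast
    rw [hDD, add_div, mul_div_assoc, mul_comm (D t), div_mul_cancel₀ _ (hDpos t).ne',
      Finset.sum_div]
    simp only [hθ]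
    have : ∀ j, (g t j : ℝ) / D t * (lam j : ℝ) = (g t j : ℝ) * (lam j : ℝ) / D t := by
      intro j; ring
    simp only [this]
    ring
  have hga : ∀ t, ∃ (A : Fin (s + 2) → ℝ) (w : Fin (s + 1) → Fin (s + 2) → ℤ), (∀ l, 0 < A l) ∧
      (∀ l, |-Real.log (A l)| ≤ (2 * δ + 1) * (Nt t : ℝ)) ∧
      (ε1 / 4 * (Nt t : ℝ) ≤ ∑ l, -Real.log (A l)) ∧ LinearIndependent ℤ w ∧
      (∀ i, ∑ l, (Fin.cons (-(-(z t))) (lam t) : Fin (s + 2) → ℤ) l * w i l = 0) ∧
      (∀ i, |(w i 0 : ℝ)| ≤ A 0) ∧ (∀ i (j : Fin (s + 1)),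
        |(w i j.succ : ℝ) - θ t j * w i 0| ≤ A j.succ) := by
    intro t
    apply geom_apply C hC hgeom δ ε1 ε0 hδ hε1 hε0 hε01 hε1δ (Nt t : ℝ) (hNc1 t) (hNc2 t)
      (θ t) (lam t) (hlam t) (-(z t)) (hle t)
    · rw [hform, neg_neg, ← hz t, abs_div, abs_of_pos (hDpos t), div_le_iff₀ (hDpos t)]
      have h1 : x t - ∑ j, g t j * lam t j + ∑ j, g t j * lam t j = x t := by ring
      rw [h1, mul_comm]
      exact hxle t
    · intro lam' P' h1 h2 h3
      rw [hform, abs_div, abs_of_pos (hDpos t), div_le_iff₀ (hDpos t)] at h2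
      apply hgap (Nt t) (hN1 t) (nt t) (Kt t) (be t) (hadm t) (lam t) lam' (x t)
        (DZ t * (-P') + ∑ j, g t j * lam' j) (hlam t)
      · intro i
        refine le_trans (hle t i) (Real.exp_le_exp.mpr ?_)
        apply mul_le_mul_of_nonneg_right _ (hNpos t).le
        linarith
      · intro i
        refine le_trans (h1 i) (Real.exp_le_exp.mpr ?_)
        exact mul_le_mul_of_nonneg_right hε11 (hNpos t).le
      · exact hxq t
      · have h4 : DZ t * (-P') + ∑ j, g t j * lam' j +
            ∑ j, lam' j * ((p : ℤ) ^ nt t * (q : ℤ) ^ be t j) =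
            DZ t * (-P') + ∑ j, (g t j + (p : ℤ) ^ nt t * (q : ℤ) ^ be t j) * lam' j := by
          rw [add_assoc, ← Finset.sum_add_distrib]
          congr 1
          apply Finset.sum_congr rfl
          intro j _; ring
        rw [h4]
        apply dvd_add
        · exact Dvd.intro _ rfl
        · exact Finset.dvd_sum (fun j _ => (hgq t j).mul_right _)
      · refine le_trans (hxle t) ?_
        apply mul_le_mul_of_nonneg_left _ (hDpos t).le
        apply Real.exp_le_exp.2
        have := hNpos t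
        nlinarith
      · rw [mul_comm (Real.exp _) (D t)] at h2
        exact h2
      · intro u v h4 h5
        apply h3 u v h4
        have h6 : DZ t * (u * (-(z t)) - v * P') = 0 := by
          have e1 : x t = DZ t * z t + ∑ j, g t j * lam t j := by rw [← hz t]; ring
          rw [e1] at h5
          have e2 : ∑ j, g t j * (u * lam t j - v * lam' j) = 0 := by
            apply Finset.sum_eq_zero
            intro j _
            rw [h4 j, mul_zero]
          have e3 : ∑ j, g t j * (u * lam t j - v * lam' j) =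
              u * ∑ j, g t j * lam t j - v * ∑ j, g t j * lam' j := by
            rw [Finset.mul_sum, Finset.mul_sum, ← Finset.sum_sub_distrib]
            apply Finset.sum_congr rfl
            intro j _; ring
          rw [e3] at e2
          linear_combination (-1 : ℤ) * h5 + e2
        rcases mul_eq_zero.1 h6 with h7 | h7
        · exact absurd h7 (hDZ0 t)
        · exact h7
  choose A w hApos hAlog hAsum hwind hworth hw0 hwj using hga
  -- the dual vectors
  set v : ℕ → Fin (s + 1) → Fin (s + 2) → ℤ := fun t i =>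
    Fin.cons (w t i 0) (fun j => DZ t * w t i j.succ - g t j * w t i 0) with hv
  have hone : (1 : Fin (s + 2)) = (0 : Fin (s + 1)).succ := Fin.succ_zero_eq_one.symm
  have hzone : (0 : Fin (s + 2)) ≠ 1 := by rw [hone]; exact (Fin.succ_ne_zero _).symm
  -- the products
  set X : ℕ → Fin (s + 2) → ℤ := fun t =>
    Fin.cons (x t) (fun i => lam t i * ((p : ℤ) ^ nt t * (q : ℤ) ^ be t i)) with hX
  have hlameps : ∀ t i, |(lam t i : ℝ)| ≤ Real.exp (δ / 8 * Nt t) := by
    intro t i
    refine le_trans (hle t i) (Real.exp_le_exp.mpr ?_)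
    exact mul_le_mul_of_nonneg_right hε0δ (hNpos t).le
  have hH := fun t => hheights (Nt t) (hNc3 t) (nt t) (Kt t) (be t) (hbe0 t) (hadm t) (lam t) (x t)
      (hlamne t) (hlameps t) (hxq t) (hxle t)
  have hXj1 : ∀ t, X t j1 ≠ 0 := by
    intro t
    have h1 := (hH t).1
    revert h1
    simp only [hX]
    refine Fin.cases ?_ (fun j => ?_) j1
    · simp only [Fin.cons_zero]; exact id
    · simp only [Fin.cons_succ]
      intro h1
      exact mul_ne_zero h1 (mul_ne_zero (pow_ne_zero _ hpZ) (pow_ne_zero _ hqZ))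
  choose P Q hPQ hrat hQ0 using fun t => exists_pq (X t j1) (-(X t j2)) (hXj1 t)
  set c : ℝ := max 1 (8 / δ) + (2 * δ + 1) + Real.log p / δ + Real.log q / δ with hc
  have hc4 : (1 : ℝ) ≤ max 1 (8 / δ) := le_max_left _ _
  have hcp : 0 < Real.log p / δ := by positivity
  have hcq : 0 < Real.log q / δ := by positivity
  have hc1 : 1 ≤ c := by rw [hc]; linarith
  have hLN : ∀ t, (nt t : ℝ) ≤ Nt t / δ := fun t => by
    rw [le_div_iff₀ hδ]; linarith [(hadm t).1]
  have hKN : ∀ t, (Kt t : ℝ) ≤ Nt t / δ := fun t => by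
    rw [le_div_iff₀ hδ]; linarith [(hadm t).2.1]
  have hKlog : ∀ t, (Kt t : ℝ) * Real.log q ≤ Real.log q / δ * Nt t := by
    intro t
    calc (Kt t : ℝ) * Real.log q ≤ Nt t / δ * Real.log q :=
          mul_le_mul_of_nonneg_right (hKN t) hlogq.le
      _ = Real.log q / δ * Nt t := by ring
  have hbK : ∀ t j, be t j ≤ Kt t := fun t j => by
    have h1 := (hadm t).2.2.2.1 j
    have h2 : 0 ≤ δ * (Nt t : ℝ) := mul_nonneg hδ.le (hNpos t).le
    have h3 : (be t j : ℝ) ≤ Kt t := by linarith
    exact_mod_cast h3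
  have hbe1 : ∀ t, (Fin.cons 0 (be t) : Fin (s + 2) → ℕ) 1 = 0 := by
    intro t
    rw [hone, Fin.cons_succ]; exact hbe0 t
  have hlogD : ∀ t, Real.log (D t) = Kt t * Real.log q := by
    intro t
    simp only [hD]
    rw [Real.log_pow]
  -- the new data
  set al2 : ℕ → Fin (s + 2) → ℕ := fun t l => if l = 0 ∨ l = 1 then 0 else nt t with hal2
  set x2 : ℕ → Fin (s + 2) → ℤ := fun t l => (Fin.cons (x t) (lam t) : Fin (s + 2) → ℤ) l *
    (if l = 1 then (p : ℤ) ^ nt t else 1) with hx2
  set B2 : ℕ → Fin (s + 2) → ℝ := fun t l => if l = 0 then (D t)⁻¹ else if l = 1 then D t else 1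
    with hB2
  set A2 : ℕ → Fin (s + 2) → ℝ := fun t l => A t l * B2 t l with hA2
  have hB2pos : ∀ t l, 0 < B2 t l := by
    intro t l
    have := hDpos t
    simp only [hB2]
    split_ifs
    · positivity
    · exact this
    · exact one_pos
  set v2 : ℕ → Fin (s + 1) → Fin (s + 2) → ℤ := fun t i l => v t i l *
    (if l = 1 then 1 else (p : ℤ) ^ nt t) with hv2
  have hx2T : ∀ t l, x2 t l * ((p : ℤ) ^ al2 t l * (q : ℤ) ^
      ((Fin.cons 0 (be t) : Fin (s + 2) → ℕ) l)) = X t l := by
    intro t l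
    simp only [hx2, hal2, hX]
    refine Fin.cases ?_ (fun j => ?_) l
    · simp [hzone]
    · simp only [Fin.cons_succ, Fin.succ_ne_zero, false_or]
      split_ifs with h1
      · rw [pow_zero]; ring
      · ring
  have hvq : ∀ t i (j : Fin (s + 1)), (q : ℤ) ^ Kt t ∣ v t i j.succ -
      (p : ℤ) ^ nt t * (q : ℤ) ^ be t j * v t i 0 := by
    intro t i j
    simp only [hv, Fin.cons_succ, Fin.cons_zero]
    have e1 : DZ t * w t i j.succ - g t j * w t i 0 -
        (p : ℤ) ^ nt t * (q : ℤ) ^ be t j * w t i 0 =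
        DZ t * w t i j.succ - (g t j + (p : ℤ) ^ nt t * (q : ℤ) ^ be t j) * w t i 0 := by ring
    rw [e1]
    apply dvd_sub
    · exact Dvd.intro _ rfl
    · exact (hgq t j).mul_right _
  have hvb : ∀ t i (l : Fin (s + 2)), |(v t i l : ℝ)| ≤ A t l * (if l = 0 then 1 else D t) := by
    intro t i l
    refine Fin.cases ?_ (fun j => ?_) l
    · simp only [hv, Fin.cons_zero, if_true, mul_one]
      exact hw0 t i
    · rw [if_neg (Fin.succ_ne_zero j)]
      simp only [hv, Fin.cons_succ]
      have h1 := hwj t i j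
      have e1 : ((DZ t * w t i j.succ - g t j * w t i 0 : ℤ) : ℝ) =
          ((w t i j.succ : ℝ) - θ t j * w t i 0) * D t := by
        push_cast
        rw [hDD]
        simp only [hθ]
        have := (hDpos t).ne'
        field_simp
      rw [e1, abs_mul, abs_of_pos (hDpos t)]
      exact mul_le_mul_of_nonneg_right h1 (hDpos t).le
  have hvind : ∀ t, LinearIndependent ℤ (v t) := by
    intro t
    have hw := hwind t
    rw [Fintype.linearIndependent_iff] at hw ⊢
    intro a ha
    apply hw a
    have h0 : ∑ i, a i * w t i 0 = 0 := by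
      have := congrFun ha 0
      rw [Finset.sum_apply] at this
      simpa [hv] using this
    funext l
    rw [Finset.sum_apply]
    refine Fin.cases ?_ (fun j => ?_) l
    · simpa using h0
    · have h1 := congrFun ha j.succ
      rw [Finset.sum_apply] at h1
      have h2 : ∑ i, a i * (DZ t * w t i j.succ - g t j * w t i 0) = 0 := by
        simpa [hv] using h1
      have h3 : DZ t * ∑ i, a i * w t i j.succ = 0 := by
        have e1 : ∑ i, a i * (DZ t * w t i j.succ - g t j * w t i 0) =
            DZ t * ∑ i, a i * w t i j.succ - g t j * ∑ i, a i * w t i 0 := by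
          rw [Finset.mul_sum, Finset.mul_sum, ← Finset.sum_sub_distrib]
          apply Finset.sum_congr rfl
          intro i _; ring
        rw [e1, h0, mul_zero, sub_zero] at h2
        exact h2
      rcases mul_eq_zero.1 h3 with h4 | h4
      · exact absurd h4 (hDZ0 t)
      · simpa using h4
  have hvorth : ∀ t i, ∑ l, (Fin.cons (x t) (lam t) : Fin (s + 2) → ℤ) l * v t i l = 0 := by
    intro t i
    have h1 := hworth t i
    rw [Fin.sum_univ_succ] at h1 ⊢
    simp only [Fin.cons_zero, Fin.cons_succ, hv] at h1 ⊢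
    have e1 : x t = DZ t * z t + ∑ j, g t j * lam t j := by rw [← hz t]; ring
    have e2 : ∑ j, lam t j * (DZ t * w t i j.succ - g t j * w t i 0) =
        DZ t * ∑ j, lam t j * w t i j.succ - (∑ j, g t j * lam t j) * w t i 0 := by
      rw [Finset.mul_sum, Finset.sum_mul, ← Finset.sum_sub_distrib]
      apply Finset.sum_congr rfl
      intro j _; ring
    rw [e2, e1]
    linear_combination DZ t * h1
  refine core2 hAux hRoth (s + 1) (by omega) hpq 1 j1 j2 hj1 hj12 c (ε1 / 4) hc1
    (by positivity) (fun t => (Nt t : ℝ)) ?_ hNpos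
    al2 (fun t => (Fin.cons 0 (be t) : Fin (s + 2) → ℕ))
    (fun t => by simp [hal2]) hbe1 nt Kt ?_ ?_ ?_ ?_
    x2 A2 ?_ ?_ ?_ v2 ?_ ?_ ?_ ?_ ?_ ?_
    P Q hPQ (fun t => by rw [hx2T, hx2T, hrat t]; ring) hQ0 ?_
  · apply tendsto_natCast_atTop_atTop.comp
    exact Filter.tendsto_atTop_mono hNt' Filter.tendsto_id
  · intro t l
    simp only [hal2]
    split_ifs
    · exact Nat.zero_le _
    · exact le_rfl
  · intro t l
    refine Fin.cases ?_ (fun j => ?_) l
    · simp
    · simp only [Fin.cons_succ]; exact hbK t j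
  · intro t
    calc (nt t : ℝ) * Real.log p ≤ Nt t / δ * Real.log p :=
          mul_le_mul_of_nonneg_right (hLN t) hlogp.le
      _ = Real.log p / δ * Nt t := by ring
      _ ≤ c * Nt t := by
        apply mul_le_mul_of_nonneg_right _ (hNpos t).le
        rw [hc]; linarith
  · intro t
    refine (hKlog t).trans ?_
    apply mul_le_mul_of_nonneg_right _ (hNpos t).le
    rw [hc]; linarith
  · intro t l
    exact mul_pos (hApos t l) (hB2pos t l)
  · intro t l
    simp only [hA2]
    rw [Real.log_mul (hApos t l).ne' (hB2pos t l).ne', neg_add]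
    refine (abs_add_le _ _).trans ?_
    have h1 := hAlog t l
    have h2 : |-Real.log (B2 t l)| ≤ Real.log q / δ * Nt t := by
      rw [abs_neg]
      simp only [hB2]
      have h3 : 0 ≤ (Kt t : ℝ) * Real.log q := by positivity
      split_ifs
      · rw [Real.log_inv, abs_neg, hlogD, abs_of_nonneg h3]; exact hKlog t
      · rw [hlogD, abs_of_nonneg h3]; exact hKlog t
      · rw [Real.log_one, abs_zero]
        have := hNpos t; positivity
    have h4 : (2 * δ + 1) * (Nt t : ℝ) + Real.log q / δ * Nt t ≤ c * Nt t := by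
      rw [← add_mul]
      apply mul_le_mul_of_nonneg_right _ (hNpos t).le
      rw [hc]; linarith
    linarith
  · intro t
    refine (hAsum t).trans (le_of_eq ?_)
    have e1 : ∀ l, -Real.log (A2 t l) = -Real.log (A t l) + -Real.log (B2 t l) := by
      intro l
      simp only [hA2]
      rw [Real.log_mul (hApos t l).ne' (hB2pos t l).ne', neg_add]
    rw [Finset.sum_congr rfl (fun l _ => e1 l), Finset.sum_add_distrib]
    have e2 : ∑ l, -Real.log (B2 t l) = 0 := by
      rw [Fin.sum_univ_succ, Fin.sum_univ_succ]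
      have e3 : ∑ i : Fin s, -Real.log (B2 t i.succ.succ) = 0 := by
        apply Finset.sum_eq_zero
        intro i _
        have h1 : i.succ.succ ≠ (0 : Fin (s + 2)) := Fin.succ_ne_zero _
        have h2 : i.succ.succ ≠ (1 : Fin (s + 2)) := by
          rw [hone]
          intro h
          exact Fin.succ_ne_zero _ (Fin.succ_injective _ h)
        simp only [hB2]
        rw [if_neg h1, if_neg h2, Real.log_one, neg_zero]
      rw [e3, ← hone]
      simp only [hB2, if_true]
      rw [if_neg hzone.symm, Real.log_inv]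
      ring
    rw [e2, add_zero]
  · -- independence
    intro t
    have hw := hvind t
    rw [Fintype.linearIndependent_iff] at hw ⊢
    intro a ha
    apply hw a
    funext l
    rw [Finset.sum_apply]
    have h1 := congrFun ha l
    rw [Finset.sum_apply] at h1
    have h2 : (if l = 1 then 1 else (p : ℤ) ^ nt t) * ∑ i, (a i • v t i) l = 0 := by
      rw [Finset.mul_sum]
      rw [← Pi.zero_apply (M := fun _ => ℤ) l, ← h1]
      apply Finset.sum_congr rfl
      intro i _
      simp only [hv2, Pi.smul_apply, smul_eq_mul]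
      ring
    rcases mul_eq_zero.1 h2 with h3 | h3
    · exfalso
      revert h3
      split_ifs
      · exact one_ne_zero
      · exact pow_ne_zero _ hpZ
    · exact h3
  · -- orthogonality
    intro t i
    have h1 : ∑ l, x2 t l * v2 t i l = (p : ℤ) ^ nt t *
        ∑ l, (Fin.cons (x t) (lam t) : Fin (s + 2) → ℤ) l * v t i l := by
      rw [Finset.mul_sum]
      apply Finset.sum_congr rfl
      intro l _
      simp only [hx2, hv2]
      split_ifs <;> ring
    rw [h1, hvorth, mul_zero]
  · -- p-divisibility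
    intro t i l hl
    simp only [hv2]
    rw [if_neg hl]
    exact Dvd.intro_left _ rfl
  · -- q-divisibility
    intro t i l hl
    have hv1 : (q : ℤ) ^ Kt t ∣ v t i 1 - (p : ℤ) ^ nt t * v t i 0 := by
      have := hvq t i 0
      rw [hbe0, pow_zero, mul_one, ← hone] at this
      exact this
    revert hl
    refine Fin.cases ?_ (fun j => ?_) l
    · intro hl
      simp only [hv2, hal2, if_neg hl, Fin.cons_zero, if_true, true_or, pow_zero, one_mul, mul_one]
      have := hv1.neg_right
      have e1 : -(v t i 1 - (p : ℤ) ^ nt t * v t i 0) = v t i 0 * (p : ℤ) ^ nt t - v t i 1 := by ring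
      rwa [e1] at this
    · intro hl
      have h0 : ¬ (j.succ = 0 ∨ j.succ = (1 : Fin (s + 2))) := by
        rintro (h | h)
        · exact Fin.succ_ne_zero _ h
        · exact hl h
      simp only [hv2, hal2, if_neg hl, if_neg h0, Fin.cons_succ, if_true, mul_one]
      have e1 : v t i j.succ * (p : ℤ) ^ nt t - (p : ℤ) ^ nt t * (q : ℤ) ^ be t j * v t i 1 =
          (p : ℤ) ^ nt t * (v t i j.succ - (p : ℤ) ^ nt t * (q : ℤ) ^ be t j * v t i 0) -
          (p : ℤ) ^ nt t * (q : ℤ) ^ be t j * (v t i 1 - (p : ℤ) ^ nt t * v t i 0) := by ring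
      rw [e1]
      exact dvd_sub ((hvq t i j).mul_left _) (hv1.mul_left _)
  · -- sizes
    intro t i l
    have h1 := hvb t i l
    have hpn : (0 : ℝ) < (p : ℝ) ^ nt t := by positivity
    have hD0 := hDpos t
    simp only [hv2, hA2, hB2]
    push_cast
    rw [abs_mul]
    by_cases hl1 : l = 1
    · subst hl1
      rw [if_neg hzone.symm] at h1
      simp only [if_true, if_neg hzone.symm, Int.cast_one, abs_one, mul_one]
      exact h1
    · rw [if_neg hl1, if_neg hl1, if_neg hl1]
      push_cast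
      rw [abs_of_pos hpn]
      by_cases hl0 : l = 0
      · subst hl0
        rw [if_pos rfl, mul_one] at h1
        rw [if_pos rfl]
        have e1 : A t 0 * (D t)⁻¹ * ((p : ℝ) ^ nt t * (q : ℝ) ^ Kt t) = A t 0 * (p : ℝ) ^ nt t := by
          have : (q : ℝ) ^ Kt t = D t := rfl
          rw [this]
          field_simp
        rw [e1]
        exact mul_le_mul_of_nonneg_right h1 hpn.le
      · rw [if_neg hl0] at h1
        rw [if_neg hl0, mul_one]
        have e1 : A t l * ((p : ℝ) ^ nt t * (q : ℝ) ^ Kt t) = A t l * D t * (p : ℝ) ^ nt t := by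
          have : (q : ℝ) ^ Kt t = D t := rfl
          rw [this]
          ring
        rw [e1]
        exact mul_le_mul_of_nonneg_right h1 hpn.le
  · intro t
    simp only [hx2]
    apply mul_ne_zero (hH t).1
    split_ifs
    · exact pow_ne_zero _ hpZ
    · exact one_ne_zero
  · intro t
    have h1 := (hH t).2 (P t) (Q t) (hQ0 t) (by
      have := hrat t
      simp only [hX] at this ⊢
      rw [this]; ring)
    refine le_trans ?_ h1
    apply div_le_div_of_nonneg_left (hNpos t).le (by linarith)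
    rw [hc]; linarith

theorem not_bad2 {p q : ℕ} [Fact (Two p)] [Fact (Two q)] (hpq : p.Coprime q) :
    ∀ (s : ℕ) (δ : ℝ), 0 < δ → ¬ Bad2 p q s δ := by
  intro s
  induction s with
  | zero =>
    intro δ _ hB
    obtain ⟨N, _, _, _, _, _, lam, hlam, _⟩ := hB 1 one_pos 0
    apply hlam
    funext i
    exact Fin.elim0 i
  | succ s ih =>
    intro δ hδ
    exact bad_step2 auxPolyStmt rothStmt (fun n hn => geometry n hn) hpq ih δ hδ

end Pool.Agent.TH796.CB
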