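import Mathlib
import Pool.Agent.TH796.CB.Thm

set_option autoImplicit false

open Finset

namespace Pool.Agent.TH796.CB

open Pool.Agent.H547R3.Sub (two_le_exp')

lemma pow_le_exp {p : ℕ} [Fact (Two p)] {a b : ℕ} {T : ℝ} (h : |(a : ℝ) - b| ≤ T) :
    (p : ℝ) ^ (a - min a b) ≤ Real.exp (T * Real.log p) := by
  have hp : Two p := Fact.out
  have hp0 : (0 : ℝ) < p := by exact_mod_cast hp.pos
  have hlogp : 0 < Real.log p := Real.log_pos (by exact_mod_cast hp.one_lt)
  have h1 : (p : ℝ) ^ (a - min a b) = Real.exp ((a - min a b : ℕ) * Real.log p) := by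
    rw [Real.exp_nat_mul, Real.exp_log hp0]
  rw [h1]
  apply Real.exp_le_exp.2
  apply mul_le_mul_of_nonneg_right _ hlogp.le
  rcases le_total a b with h2 | h2
  · rw [min_eq_left h2, Nat.sub_self, Nat.cast_zero]
    exact (abs_nonneg _).trans h
  · rw [min_eq_right h2, Nat.cast_sub h2]
    exact (le_abs_self _).trans h


lemma zero_of_small2 {q : ℕ} [Fact (Two q)] {K : ℕ} {x : ℤ} (h2 : (q : ℤ) ^ K ∣ x)
    (h3 : |(x : ℝ)| < (q : ℝ) ^ K) : x = 0 := by
  by_contra hne
  have h5 := Int.le_of_dvd (abs_pos.2 hne) ((dvd_abs _ _).2 h2)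
  have h6 : (q : ℝ) ^ K ≤ |(x : ℝ)| := by exact_mod_cast h5
  linarith

/-- The subspace theorem for sums of `D` terms `p ^ n * q ^ β j`, no separation needed. -/
theorem merge2 {p q : ℕ} [Fact (Two p)] [Fact (Two q)] (hpq : p.Coprime q) (D : ℕ) :
    ∀ δ : ℝ, 0 < δ →
    ∃ ε : ℝ, 0 < ε ∧ ∃ N0 : ℕ, ∀ N : ℕ, N0 ≤ N → ∀ (n K : ℕ) (β : Fin D → ℕ),
      δ * n ≤ N → δ * K ≤ N → (q : ℝ) ^ K ≤ (p : ℝ) ^ n → (∀ i, (β i : ℝ) + δ * N ≤ K) →
      ∀ lam : Fin D → ℤ, (∀ j, |(lam j : ℝ)| ≤ Real.exp (ε * N)) → ∀ x : ℤ,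
      (q : ℤ) ^ K ∣ x + ∑ j, lam j * ((p : ℤ) ^ n * (q : ℤ) ^ β j) →
      |(x : ℝ)| ≤ (q : ℝ) ^ K * Real.exp (-(δ * N)) → x = 0 := by
  have hp : Two p := Fact.out
  have hq : Two q := Fact.out
  have hp0 : (0 : ℝ) < p := by exact_mod_cast hp.pos
  have hq0 : (0 : ℝ) < q := by exact_mod_cast hq.pos
  have hlogq : 0 < Real.log q := Real.log_pos (by exact_mod_cast hq.one_lt)
  have hlt : ∀ (δ : ℝ), 0 < δ → ∀ N : ℕ, 1 ≤ N → ∀ (K : ℕ),
      (q : ℝ) ^ K * Real.exp (-(δ * N)) < (q : ℝ) ^ K := by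
    intro δ hδ N hN K
    have h1 : Real.exp (-(δ * N)) < 1 := by
      rw [Real.exp_lt_one_iff]
      have : (1 : ℝ) ≤ N := by exact_mod_cast hN
      have : 0 < δ * N := by positivity
      linarith
    have h2 : 0 < (q : ℝ) ^ K := by positivity
    nlinarith
  induction D with
  | zero =>
    intro δ hδ
    refine ⟨1, one_pos, 1, ?_⟩
    intro N hN n K β _ _ _ _ lam _ x hxq hx
    apply zero_of_small2 (q := q) (K := K)
    · simpa using hxq
    · exact lt_of_le_of_lt hx (hlt δ hδ N hN K)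
  | succ D ih =>
    intro δ hδ
    obtain ⟨ε', hε', N1, h1⟩ := ih δ hδ
    set G : ℝ := Real.log q with hG
    have hG0 : 0 < G := by positivity
    set δ' : ℝ := min δ (ε' / (4 * G)) with hδ'
    have hδ'0 : 0 < δ' := by rw [hδ']; apply lt_min hδ; positivity
    have hδ'1 : δ' ≤ δ := min_le_left _ _
    have hδ'2 : δ' * G ≤ ε' / 4 := by
      have : δ' ≤ ε' / (4 * G) := min_le_right _ _
      calc δ' * G ≤ ε' / (4 * G) * G := mul_le_mul_of_nonneg_right this hG0.le
        _ = ε' / 4 := by field_simp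
    obtain ⟨ε2, hε2, N2, h2⟩ := not_bad_iff2 (not_bad2 hpq (D + 1) δ' hδ'0)
    set ε : ℝ := min ε2 (ε' / 4) with hεd
    have hε : 0 < ε := by rw [hεd]; apply lt_min hε2; positivity
    have hεε : ε ≤ ε' / 4 := min_le_right _ _
    refine ⟨ε, hε, max (max 1 N1) (max N2 ⌈2 / ε'⌉₊), ?_⟩
    intro N hN n K β hn hK hnK hβ lam hlam x hxq hx
    have hN1 : N1 ≤ N := le_trans (le_max_right _ _) (le_trans (le_max_left _ _) hN)
    have hN11 : 1 ≤ N := le_trans (le_max_left _ _) (le_trans (le_max_left _ _) hN)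
    have hN2 : N2 ≤ N := le_trans (le_trans (le_max_left _ _) (le_max_right _ _)) hN
    have hN3 : 2 / ε' ≤ N := by
      refine le_trans (Nat.le_ceil _) ?_
      exact_mod_cast le_trans (le_trans (le_max_right _ _) (le_max_right _ _)) hN
    have hN0 : (0 : ℝ) ≤ N := Nat.cast_nonneg _
    have hδN : δ' * N ≤ δ * N := mul_le_mul_of_nonneg_right hδ'1 hN0
    have htwo : 2 ≤ Real.exp (ε' / 2 * N) := by
      apply two_le_exp'
      rw [div_le_iff₀ hε'] at hN3
      linarith
    by_cases hsep : ∀ i j, i ≠ j → δ' * N ≤ |(β i : ℝ) - β j|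
    · by_cases hl0 : lam = 0
      · rw [hl0] at hxq
        apply zero_of_small2 (q := q) (K := K)
        · simpa using hxq
        · exact lt_of_le_of_lt hx (hlt δ hδ N hN11 K)
      · exfalso
        have h3 := h2 N hN2 n K β
          ⟨(mul_le_mul_of_nonneg_right hδ'1 (Nat.cast_nonneg _)).trans hn,
            (mul_le_mul_of_nonneg_right hδ'1 (Nat.cast_nonneg _)).trans hK, hnK,
            fun i => by linarith [hβ i], hsep⟩ lam hl0
          (fun j => le_trans (hlam j) (Real.exp_le_exp.mpr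
            (mul_le_mul_of_nonneg_right (min_le_left _ _) hN0))) x hxq
        have h4 : (q : ℝ) ^ K * Real.exp (-(δ * N)) ≤
            (q : ℝ) ^ K * Real.exp (-(δ' * N)) := by
          apply mul_le_mul_of_nonneg_left _ (by positivity)
          apply Real.exp_le_exp.2
          linarith
        linarith
    · push Not at hsep
      obtain ⟨i, j, hij, hltb⟩ := hsep
      obtain ⟨k, hk⟩ := Fin.exists_succAbove_eq (Ne.symm hij)
      set β' : Fin D → ℕ := fun l => if l = k then min (β i) (β j) else β (i.succAbove l) with hβ'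
      set lam' : Fin D → ℤ := fun l => if l = k then
        lam i * ((q : ℤ) ^ (β i - min (β i) (β j))) +
        lam j * ((q : ℤ) ^ (β j - min (β i) (β j)))
        else lam (i.succAbove l) with hlam'
      have hsumZ : ∑ l, lam' l * ((p : ℤ) ^ n * (q : ℤ) ^ (β' l)) =
          ∑ l, lam l * ((p : ℤ) ^ n * (q : ℤ) ^ (β l)) := by
        rw [Fin.sum_univ_succAbove _ i]
        rw [← Finset.add_sum_erase _ _ (Finset.mem_univ k),
          ← Finset.add_sum_erase _ (fun l => lam (i.succAbove l) *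
            ((p : ℤ) ^ n * (q : ℤ) ^ (β (i.succAbove l)))) (Finset.mem_univ k)]
        rw [← add_assoc]
        congr 1
        · simp only [hlam', hβ', if_true, hk]
          have e3 : (q : ℤ) ^ β i = (q : ℤ) ^ (β i - min (β i) (β j)) *
              (q : ℤ) ^ (min (β i) (β j)) := by
            rw [← pow_add]; congr 1; have := min_le_left (β i) (β j); omega
          have e4 : (q : ℤ) ^ β j = (q : ℤ) ^ (β j - min (β i) (β j)) *
              (q : ℤ) ^ (min (β i) (β j)) := by
            rw [← pow_add]; congr 1; have := min_le_right (β i) (β j); omega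
          rw [e3, e4]
          ring
        · apply Finset.sum_congr rfl
          intro l hl
          have hlk : l ≠ k := by simpa using hl
          simp only [hlam', hβ', if_neg hlk]
      refine h1 N hN1 n K β' hn hK hnK ?_ lam' ?_ x ?_ hx
      · intro l
        simp only [hβ']
        split_ifs
        · have h3 : ((min (β i) (β j) : ℕ) : ℝ) ≤ β i := by exact_mod_cast min_le_left _ _
          linarith [hβ i]
        · exact hβ _
      · intro l
        have hq4 : Real.exp (ε * N) ≤ Real.exp (ε' / 4 * N) :=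
          Real.exp_le_exp.2 (mul_le_mul_of_nonneg_right hεε hN0)
        simp only [hlam']
        split_ifs
        · have b1 := pow_le_exp (p := q) (a := β i) (b := β j) hltb.le
          have b2 := pow_le_exp (p := q) (a := β j) (b := β i) (T := δ' * N)
            (by rw [abs_sub_comm]; exact hltb.le)
          rw [min_comm] at b2
          have hGN : Real.exp (δ' * N * Real.log q) ≤ Real.exp (ε' / 4 * N) := by
            apply Real.exp_le_exp.2
            have : δ' * N * Real.log q = δ' * G * N := by rw [hG]; ring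
            rw [this]
            exact mul_le_mul_of_nonneg_right hδ'2 hN0
          have hterm : ∀ (m : ℤ) (v : ℝ), |(m : ℝ)| ≤ Real.exp (ε * N) → 0 ≤ v →
              v ≤ Real.exp (δ' * N * Real.log q) →
              |(m : ℝ)| * v ≤ Real.exp (ε' / 2 * N) := by
            intro m v hm hv hv1
            calc |(m : ℝ)| * v ≤ Real.exp (ε' / 4 * N) * Real.exp (ε' / 4 * N) := by
                  apply mul_le_mul (hm.trans hq4) (hv1.trans hGN) hv (Real.exp_pos _).le
              _ = Real.exp (ε' / 2 * N) := by rw [← Real.exp_add]; congr 1; ring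
          have t1 := hterm (lam i) _ (hlam i) (by positivity) b1
          have t2 := hterm (lam j) _ (hlam j) (by positivity) b2
          push_cast
          refine (abs_add_le _ _).trans ?_
          rw [abs_mul (lam i : ℝ), abs_mul (lam j : ℝ), abs_of_nonneg (by positivity : (0 : ℝ) ≤
            (q : ℝ) ^ (β i - min (β i) (β j))),
            abs_of_nonneg (by positivity : (0 : ℝ) ≤
            (q : ℝ) ^ (β j - min (β i) (β j)))]
          calc _ ≤ Real.exp (ε' / 2 * N) + Real.exp (ε' / 2 * N) := add_le_add t1 t2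
            _ = 2 * Real.exp (ε' / 2 * N) := by ring
            _ ≤ Real.exp (ε' / 2 * N) * Real.exp (ε' / 2 * N) :=
              mul_le_mul_of_nonneg_right htwo (Real.exp_pos _).le
            _ = Real.exp (ε' * N) := by rw [← Real.exp_add]; congr 1; ring
        · refine (hlam _).trans (hq4.trans ?_)
          apply Real.exp_le_exp.2
          nlinarith
      · rw [hsumZ]; exact hxq

/-- `p ^ n * A` is not close to a multiple of `q ^ K`, `A` a nonzero sum of `D` terms. -/
theorem indep {p q : ℕ} [Fact (Two p)] [Fact (Two q)] (hpq : p.Coprime q) (D : ℕ) (δ : ℝ) (hδ : 0 < δ) :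
    ∃ ε : ℝ, 0 < ε ∧ ∃ N0 : ℕ, ∀ N : ℕ, N0 ≤ N → ∀ (n K : ℕ) (β : Fin D → ℕ),
      δ * n ≤ N → δ * K ≤ N → (q : ℝ) ^ K ≤ (p : ℝ) ^ n → (∀ i, (β i : ℝ) + δ * N ≤ K) →
      ∀ lam : Fin D → ℤ, (∀ j, |(lam j : ℝ)| ≤ Real.exp (ε * N)) → ∀ x : ℤ,
      (q : ℤ) ^ K ∣ x + (p : ℤ) ^ n * ∑ j, lam j * (q : ℤ) ^ β j →
      |(x : ℝ)| ≤ (q : ℝ) ^ K * Real.exp (-(δ * N)) → ∑ j, lam j * (q : ℤ) ^ β j = 0 := by
  have hp : Two p := Fact.out
  have hq : Two q := Fact.out
  have hq0 : (0 : ℝ) < q := by exact_mod_cast hq.pos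
  have hlogq : 1 / 2 ≤ Real.log q := by
    have h8 : Real.log 2 ≤ Real.log q := Real.log_le_log (by norm_num) (by exact_mod_cast hq.two_le)
    have := Real.log_two_gt_d9
    linarith
  obtain ⟨ε0, hε0, N0, h⟩ := merge2 hpq D δ hδ
  refine ⟨min ε0 (δ / 4), lt_min hε0 (by positivity), max N0 (⌈4 * ((D : ℝ) + 1) / δ⌉₊ + 1), ?_⟩
  intro N hN n K β hn hK hnK hβ lam hlam x hxq hx
  have hN0 : (0 : ℝ) ≤ N := Nat.cast_nonneg _
  have hN1 : 4 * ((D : ℝ) + 1) / δ ≤ N := by
    refine le_trans (Nat.le_ceil _) ?_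
    exact_mod_cast le_trans (le_trans (Nat.le_succ _) (le_max_right _ _)) hN
  have hx0 := h N ((le_max_left _ _).trans hN) n K β hn hK hnK hβ lam
    (fun j => (hlam j).trans (Real.exp_le_exp.2 (mul_le_mul_of_nonneg_right (min_le_left _ _) hN0)))
    x (by
      have e1 : ∑ j, lam j * ((p : ℤ) ^ n * (q : ℤ) ^ β j) =
          (p : ℤ) ^ n * ∑ j, lam j * (q : ℤ) ^ β j := by
        rw [Finset.mul_sum]
        apply Finset.sum_congr rfl
        intro j _; ring
      rw [e1]; exact hxq) hx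
  rw [hx0, zero_add] at hxq
  have hcop : IsCoprime ((q : ℤ) ^ K) ((p : ℤ) ^ n) :=
    IsCoprime.pow (Nat.isCoprime_iff_coprime.2 (Nat.Coprime.symm hpq))
  have hd := hcop.dvd_of_dvd_mul_left hxq
  apply zero_of_small2 (q := q) (K := K) hd
  push_cast
  have hqK : (0 : ℝ) < (q : ℝ) ^ K := by positivity
  have h1 : ∀ j, |(lam j : ℝ) * (q : ℝ) ^ β j| ≤ (q : ℝ) ^ K * Real.exp (-(δ / 4 * N)) := by
    intro j
    rw [abs_mul, abs_of_pos (by positivity : (0 : ℝ) < (q : ℝ) ^ β j)]
    have h2 : |(lam j : ℝ)| ≤ Real.exp (δ / 4 * N) :=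
      (hlam j).trans (Real.exp_le_exp.2 (mul_le_mul_of_nonneg_right (min_le_right _ _) hN0))
    have hle : β j ≤ K := by
      have h3 := hβ j
      have h4 : 0 ≤ δ * N := by positivity
      have h5 : (β j : ℝ) ≤ K := by linarith
      exact_mod_cast h5
    have h3 : (q : ℝ) ^ β j ≤ (q : ℝ) ^ K * Real.exp (-(δ / 2 * N)) := by
      have e1 : (q : ℝ) ^ K = (q : ℝ) ^ β j * (q : ℝ) ^ (K - β j) := by
        rw [← pow_add, Nat.add_sub_cancel' hle]
      have e2 : Real.exp (δ / 2 * N) ≤ (q : ℝ) ^ (K - β j) := by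
        have e3 : (q : ℝ) ^ (K - β j) = Real.exp ((K - β j : ℕ) * Real.log q) := by
          rw [Real.exp_nat_mul, Real.exp_log hq0]
        rw [e3]
        apply Real.exp_le_exp.2
        have h9 : δ * N ≤ ((K - β j : ℕ) : ℝ) := by
          rw [Nat.cast_sub hle]; linarith [hβ j]
        have h10 : 0 ≤ δ * N := by positivity
        nlinarith
      rw [e1, mul_assoc]
      have e4 : 1 ≤ (q : ℝ) ^ (K - β j) * Real.exp (-(δ / 2 * N)) := by
        calc (1 : ℝ) = Real.exp (δ / 2 * N) * Real.exp (-(δ / 2 * N)) := by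
              rw [← Real.exp_add, add_neg_cancel, Real.exp_zero]
          _ ≤ _ := mul_le_mul_of_nonneg_right e2 (Real.exp_pos _).le
      have e5 : (0 : ℝ) < (q : ℝ) ^ β j := by positivity
      nlinarith
    calc |(lam j : ℝ)| * (q : ℝ) ^ β j ≤
        Real.exp (δ / 4 * N) * ((q : ℝ) ^ K * Real.exp (-(δ / 2 * N))) :=
          mul_le_mul h2 h3 (by positivity) (Real.exp_pos _).le
      _ = (q : ℝ) ^ K * (Real.exp (δ / 4 * N) * Real.exp (-(δ / 2 * N))) := by ring
      _ = (q : ℝ) ^ K * Real.exp (-(δ / 4 * N)) := by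
        rw [← Real.exp_add]; congr 2; ring
  have h2 : |∑ j, (lam j : ℝ) * (q : ℝ) ^ β j| ≤ D * ((q : ℝ) ^ K * Real.exp (-(δ / 4 * N))) := by
    refine (Finset.abs_sum_le_sum_abs _ _).trans ?_
    refine (Finset.sum_le_card_nsmul _ _ _ (fun j _ => h1 j)).trans (le_of_eq ?_)
    rw [Finset.card_univ, Fintype.card_fin, nsmul_eq_mul]
  refine lt_of_le_of_lt h2 ?_
  have h3 : (D : ℝ) + 1 < Real.exp (δ / 4 * N) := by
    have h4 : (D : ℝ) + 1 ≤ δ / 4 * N := by
      rw [div_le_iff₀ hδ] at hN1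
      linarith
    have h5 := Real.add_one_le_exp (δ / 4 * N)
    linarith
  have h4 : D * Real.exp (-(δ / 4 * N)) < 1 := by
    rw [Real.exp_neg, ← div_eq_mul_inv, div_lt_one (Real.exp_pos _)]
    linarith
  nlinarith

end Pool.Agent.TH796.CB
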