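import Mathlib
import Pool.Agent.TH796.CB.Merge

set_option autoImplicit false

open Finset

namespace Pool.Agent.TH796.CB

/-- `merge2` for all sums of at most `M` terms, indexed by a finite set -/
theorem mergeSet {p q : ℕ} (hp : 2 ≤ p) (hq : 2 ≤ q) (hpq : p.Coprime q) (M : ℕ) (δ : ℝ)
    (hδ : 0 < δ) :
    ∃ ε : ℝ, 0 < ε ∧ ∃ N0 : ℕ, ∀ N : ℕ, N0 ≤ N → ∀ (n K : ℕ) (S : Finset ℕ), S.card ≤ M →
      ∀ β : ℕ → ℕ, δ * n ≤ N → δ * K ≤ N → (q : ℝ) ^ K ≤ (p : ℝ) ^ n →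
      (∀ i ∈ S, (β i : ℝ) + δ * N ≤ K) →
      ∀ lam : ℕ → ℤ, (∀ j ∈ S, |(lam j : ℝ)| ≤ Real.exp (ε * N)) → ∀ x : ℤ,
      (q : ℤ) ^ K ∣ x + ∑ j ∈ S, lam j * ((p : ℤ) ^ n * (q : ℤ) ^ β j) →
      |(x : ℝ)| ≤ (q : ℝ) ^ K * Real.exp (-(δ * N)) → x = 0 := by
  have : Fact (Two p) := ⟨hp⟩
  have : Fact (Two q) := ⟨hq⟩
  induction M with
  | zero =>
    obtain ⟨ε, hε, N0, h⟩ := merge2 hpq 0 δ hδ
    refine ⟨ε, hε, N0, ?_⟩
    intro N hN n K S hS β hn hK hle hβ lam hlam x hx hxle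
    have hS0 : S = ∅ := Finset.card_eq_zero.1 (Nat.le_zero.1 hS)
    subst hS0
    exact h N hN n K (fun i => Fin.elim0 i) hn hK hle (fun i => Fin.elim0 i) (fun i => Fin.elim0 i)
      (fun i => Fin.elim0 i) x (by simpa using hx) hxle
  | succ M ih =>
    obtain ⟨ε1, hε1, N1, h1⟩ := ih
    obtain ⟨ε2, hε2, N2, h2⟩ := merge2 hpq (M + 1) δ hδ
    refine ⟨min ε1 ε2, lt_min hε1 hε2, max N1 N2, ?_⟩
    intro N hN n K S hS β hn hK hle hβ lam hlam x hx hxle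
    have hN0 : (0 : ℝ) ≤ N := Nat.cast_nonneg _
    rcases Nat.lt_or_ge S.card (M + 1) with hlt | hge
    · exact h1 N ((le_max_left _ _).trans hN) n K S (by omega) β hn hK hle hβ lam
        (fun j hj => (hlam j hj).trans (Real.exp_le_exp.2
          (mul_le_mul_of_nonneg_right (min_le_left _ _) hN0))) x hx hxle
    · have hcard : S.card = M + 1 := le_antisymm hS hge
      let φ := S.equivFinOfCardEq hcard
      have hsum : ∀ f : ℕ → ℤ, ∑ j ∈ S, f j = ∑ i : Fin (M + 1), f (φ.symm i) := by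
        intro f
        rw [← Finset.sum_coe_sort S f]
        exact (Equiv.sum_comp φ.symm (fun i : S => f i)).symm
      refine h2 N ((le_max_right _ _).trans hN) n K (fun i => β (φ.symm i)) hn hK hle
        (fun i => hβ _ (φ.symm i).2) (fun i => lam (φ.symm i))
        (fun i => (hlam _ (φ.symm i).2).trans (Real.exp_le_exp.2
          (mul_le_mul_of_nonneg_right (min_le_right _ _) hN0))) x ?_ hxle
      rw [← hsum (fun j => lam j * ((p : ℤ) ^ n * (q : ℤ) ^ β j))]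
      exact hx

/-- `g ^ L` times the `L`-th partial sum of `∑ c n / g ^ n` -/
def G (g : ℕ) (c : ℕ → ℤ) (L : ℕ) : ℤ := ∑ n ∈ Finset.range (L + 1), c n * (g : ℤ) ^ (L - n)

lemma G_split (g : ℕ) (c : ℕ → ℤ) {m L : ℕ} (h : m ≤ L) :
    G g c L = (g : ℤ) ^ (L - m) * G g c m + ∑ n ∈ Finset.Ioc m L, c n * (g : ℤ) ^ (L - n) := by
  unfold G
  have h1 : Finset.range (L + 1) = Finset.range (m + 1) ∪ Finset.Ioc m L := by
    ext n
    simp only [Finset.mem_range, Finset.mem_union, Finset.mem_Ioc]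
    omega
  have h2 : Disjoint (Finset.range (m + 1)) (Finset.Ioc m L) := by
    rw [Finset.disjoint_left]
    intro n hn hn'
    rw [Finset.mem_range] at hn
    rw [Finset.mem_Ioc] at hn'
    omega
  rw [h1, Finset.sum_union h2]
  congr 1
  rw [Finset.mul_sum]
  apply Finset.sum_congr rfl
  intro n hn
  rw [Finset.mem_range] at hn
  have h3 : L - n = (L - m) + (m - n) := by omega
  rw [h3, pow_add]
  ring

lemma G_div {g : ℕ} (hg : 2 ≤ g) (c : ℕ → ℤ) (L : ℕ) :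
    (G g c L : ℝ) / (g : ℝ) ^ L = ∑ n ∈ Finset.range (L + 1), (c n : ℝ) / (g : ℝ) ^ n := by
  have hg0 : (g : ℝ) ≠ 0 := by
    have : g ≠ 0 := by omega
    exact_mod_cast this
  unfold G
  push_cast
  rw [Finset.sum_div]
  apply Finset.sum_congr rfl
  intro n hn
  rw [Finset.mem_range] at hn
  have h1 : (g : ℝ) ^ L = (g : ℝ) ^ (L - n) * (g : ℝ) ^ n := by
    rw [← pow_add]; congr 1; omega
  rw [h1]
  field_simp

/-- the error of the partial sum -/
lemma tail_le {g : ℕ} (hg : 2 ≤ g) {c : ℕ → ℤ} {H x : ℝ} (hc : ∀ n, |(c n : ℝ)| ≤ H)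
    (hx : HasSum (fun n => (c n : ℝ) / (g : ℝ) ^ n) x) {L L' : ℕ} (hL : L ≤ L')
    (h0 : ∀ n, L < n → n ≤ L' → c n = 0) :
    |(G g c L : ℝ) / (g : ℝ) ^ L - x| ≤ H / (g : ℝ) ^ L' := by
  have hg0 : (0 : ℝ) < g := by
    have : 0 < g := by omega
    exact_mod_cast this
  have hg2 : (2 : ℝ) ≤ g := by exact_mod_cast hg
  have hH : 0 ≤ H := (abs_nonneg _).trans (hc 0)
  -- partial sums up to `L` and `L'` agree
  have h1 : ∑ n ∈ Finset.range (L + 1), (c n : ℝ) / (g : ℝ) ^ n =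
      ∑ n ∈ Finset.range (L' + 1), (c n : ℝ) / (g : ℝ) ^ n := by
    apply Finset.sum_subset
    · intro n hn
      rw [Finset.mem_range] at hn ⊢
      omega
    · intro n hn hn'
      rw [Finset.mem_range] at hn hn'
      rw [h0 n (by omega) (by omega)]
      simp
  rw [G_div hg, h1]
  have h2 : HasSum (fun n => (c (n + (L' + 1)) : ℝ) / (g : ℝ) ^ (n + (L' + 1)))
      (x - ∑ n ∈ Finset.range (L' + 1), (c n : ℝ) / (g : ℝ) ^ n) :=
    (hasSum_nat_add_iff' (L' + 1)).2 hx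
  have hgeo : HasSum (fun n : ℕ => H / (g : ℝ) ^ (L' + 1) * (1 / (g : ℝ)) ^ n)
      (H / (g : ℝ) ^ (L' + 1) * (1 - 1 / (g : ℝ))⁻¹) := by
    apply HasSum.mul_left
    apply hasSum_geometric_of_lt_one (by positivity)
    rw [div_lt_one hg0]; linarith
  have h3 : |x - ∑ n ∈ Finset.range (L' + 1), (c n : ℝ) / (g : ℝ) ^ n| ≤
      H / (g : ℝ) ^ (L' + 1) * (1 - 1 / (g : ℝ))⁻¹ := by
    rw [← Real.norm_eq_abs]
    apply h2.norm_le_of_bounded hgeo
    intro n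
    rw [Real.norm_eq_abs, abs_div, abs_of_pos (by positivity : (0 : ℝ) < (g : ℝ) ^ (n + (L' + 1)))]
    have e1 : H / (g : ℝ) ^ (L' + 1) * (1 / (g : ℝ)) ^ n = H / (g : ℝ) ^ (n + (L' + 1)) := by
      rw [one_div, inv_pow, pow_add]
      field_simp
      ring
    rw [e1]
    exact div_le_div_of_nonneg_right (hc _) (by positivity)
  rw [abs_sub_comm]
  refine h3.trans ?_
  have h4 : (1 - 1 / (g : ℝ))⁻¹ ≤ 2 := by
    have h5 : (1 : ℝ) / g ≤ 1 / 2 := one_div_le_one_div_of_le (by norm_num) hg2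
    rw [inv_le_comm₀ (by linarith) (by norm_num)]
    linarith
  calc H / (g : ℝ) ^ (L' + 1) * (1 - 1 / (g : ℝ))⁻¹ ≤ H / (g : ℝ) ^ (L' + 1) * 2 :=
        mul_le_mul_of_nonneg_left h4 (by positivity)
    _ = H / (g : ℝ) ^ L' * (2 / g) := by rw [pow_succ]; field_simp
    _ ≤ H / (g : ℝ) ^ L' * 1 := by
        apply mul_le_mul_of_nonneg_left _ (by positivity)
        rw [div_le_one hg0]; exact hg2
    _ = H / (g : ℝ) ^ L' := mul_one _

/-- number of indices `n ≤ v` with `c n ≠ 0` -/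
noncomputable def cnt (c : ℕ → ℤ) (v : ℝ) : ℕ :=
  ((Finset.range (⌊v⌋₊ + 1)).filter (fun n => c n ≠ 0)).card

lemma cnt_mono (c : ℕ → ℤ) {u v : ℝ} (h : u ≤ v) : cnt c u ≤ cnt c v := by
  unfold cnt
  apply Finset.card_le_card
  intro n hn
  rw [Finset.mem_filter, Finset.mem_range] at hn ⊢
  have := Nat.floor_le_floor h
  exact ⟨by omega, hn.2⟩

/-- the indices between `u` and `v` -/
noncomputable def win (c : ℕ → ℤ) (u v : ℝ) : Finset ℕ :=
  (Finset.Ioc ⌊u⌋₊ ⌊v⌋₊).filter (fun n => c n ≠ 0)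

lemma cnt_add_win (c : ℕ → ℤ) {u v : ℝ} (h : u ≤ v) : cnt c u + (win c u v).card = cnt c v := by
  unfold cnt win
  have h1 := Nat.floor_le_floor h
  rw [← Finset.card_union_of_disjoint]
  · congr 1
    ext n
    simp only [Finset.mem_union, Finset.mem_filter, Finset.mem_range, Finset.mem_Ioc]
    constructor
    · rintro (⟨h2, h3⟩ | ⟨⟨h2, h4⟩, h3⟩)
      · exact ⟨by omega, h3⟩
      · exact ⟨by omega, h3⟩
    · rintro ⟨h2, h3⟩
      by_cases h4 : n < ⌊u⌋₊ + 1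
      · exact Or.inl ⟨h4, h3⟩
      · exact Or.inr ⟨⟨by omega, by omega⟩, h3⟩
  · rw [Finset.disjoint_left]
    intro n hn hn'
    simp only [Finset.mem_filter, Finset.mem_range, Finset.mem_Ioc] at hn hn'
    omega

end Pool.Agent.TH796.CB
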