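import Mathlib
import Pool.Agent.TH796.CB.TB1

set_option autoImplicit false

open Finset

namespace Pool.Agent.TH796.CB

lemma free_interval (S : Finset ℕ) (M m0 w : ℕ) (hS : S.card ≤ M) :
    ∃ i ≤ M, ∀ n ∈ Finset.Ioc (m0 + i * w) (m0 + (i + 1) * w), n ∉ S := by
  by_contra hcon
  push Not at hcon
  have h1 : ∀ i : ℕ, ∃ n, i ≤ M → n ∈ Finset.Ioc (m0 + i * w) (m0 + (i + 1) * w) ∧ n ∈ S := by
    intro i
    by_cases hi : i ≤ M
    · obtain ⟨n, hn1, hn2⟩ := hcon i hi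
      exact ⟨n, fun _ => ⟨hn1, hn2⟩⟩
    · exact ⟨0, fun h => absurd h hi⟩
  choose f hf using h1
  have h2 : (Finset.range (M + 1)).card ≤ S.card := by
    apply Finset.card_le_card_of_injOn f
    · intro i hi
      rw [Finset.coe_range, Set.mem_Iio] at hi
      exact (hf i (by omega)).2
    · intro i hi j hj hij
      rw [Finset.coe_range, Set.mem_Iio] at hi hj
      have h3 := Finset.mem_Ioc.1 (hf i (by omega)).1
      have h4 := Finset.mem_Ioc.1 (hf j (by omega)).1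
      rw [hij] at h3
      by_contra hne
      rcases Nat.lt_or_gt_of_ne hne with h | h
      · have : (i + 1) * w ≤ j * w := Nat.mul_le_mul_right _ h
        omega
      · have : (j + 1) * w ≤ i * w := Nat.mul_le_mul_right _ h
        omega
  rw [Finset.card_range] at h2
  omega

lemma dist_pos {x : ℝ} (hx : Irrational x) : ∃ ρ : ℝ, 0 < ρ ∧ ∀ z : ℤ, ρ ≤ |x - z| := by
  refine ⟨|x - round x|, ?_, fun z => round_le x z⟩
  rw [abs_pos, sub_ne_zero]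
  exact hx.ne_int (round x)

/-- the relation between two partial sums -/
lemma X_small {a b : ℕ} (ha : 2 ≤ a) (hb : 2 ≤ b) {A B C : ℤ} {c e : ℕ → ℤ} {H x y : ℝ}
    (hc : ∀ n, |(c n : ℝ)| ≤ H) (he : ∀ n, |(e n : ℝ)| ≤ H)
    (hx : HasSum (fun n => (c n : ℝ) / (a : ℝ) ^ n) x)
    (hy : HasSum (fun n => (e n : ℝ) / (b : ℝ) ^ n) y) (hrel : A * x + B * y = C)
    {L L' K K' : ℕ} (hL : L ≤ L') (hK : K ≤ K') (h0 : ∀ n, L < n → n ≤ L' → c n = 0)
    (h0' : ∀ n, K < n → n ≤ K' → e n = 0) :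
    |((A * G a c L * (b : ℤ) ^ K + B * G b e K * (a : ℤ) ^ L - C * ((a : ℤ) ^ L * (b : ℤ) ^ K) : ℤ)
      : ℝ)| ≤ (a : ℝ) ^ L * (b : ℝ) ^ K * (|(A : ℝ)| * (H / (a : ℝ) ^ L') +
        |(B : ℝ)| * (H / (b : ℝ) ^ K')) := by
  have ha0 : (0 : ℝ) < a := by
    have : 0 < a := by omega
    exact_mod_cast this
  have hb0 : (0 : ℝ) < b := by
    have : 0 < b := by omega
    exact_mod_cast this
  have h1 := tail_le ha hc hx hL h0
  have h2 := tail_le hb he hy hK h0'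
  have h3 : ((A * G a c L * (b : ℤ) ^ K + B * G b e K * (a : ℤ) ^ L -
      C * ((a : ℤ) ^ L * (b : ℤ) ^ K) : ℤ) : ℝ) = (a : ℝ) ^ L * (b : ℝ) ^ K *
      (A * ((G a c L : ℝ) / (a : ℝ) ^ L - x) + B * ((G b e K : ℝ) / (b : ℝ) ^ K - y)) := by
    push_cast
    rw [← hrel]
    field_simp
    ring
  rw [h3, abs_mul, abs_of_pos (by positivity : (0 : ℝ) < (a : ℝ) ^ L * (b : ℝ) ^ K)]
  apply mul_le_mul_of_nonneg_left _ (by positivity)
  refine (abs_add_le _ _).trans ?_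
  rw [abs_mul, abs_mul]
  exact add_le_add (mul_le_mul_of_nonneg_left h1 (abs_nonneg _))
    (mul_le_mul_of_nonneg_left h2 (abs_nonneg _))

/-- the congruence modulo `b ^ K` -/
lemma X_congr {a b : ℕ} {A B C : ℤ} {c e : ℕ → ℤ} {L K m : ℕ} (hm : m ≤ K) :
    (b : ℤ) ^ K ∣ (b : ℤ) ^ m * (A * G a c L * (b : ℤ) ^ K + B * G b e K * (a : ℤ) ^ L -
      C * ((a : ℤ) ^ L * (b : ℤ) ^ K)) +
      ∑ n ∈ (Finset.Ioc m K).filter (fun n => e n ≠ 0),
        (-(B * e n)) * ((a : ℤ) ^ L * (b : ℤ) ^ (K - n + m)) := by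
  have h1 : ∑ n ∈ (Finset.Ioc m K).filter (fun n => e n ≠ 0),
      (-(B * e n)) * ((a : ℤ) ^ L * (b : ℤ) ^ (K - n + m)) =
      -(B * (a : ℤ) ^ L * (b : ℤ) ^ m * ∑ n ∈ Finset.Ioc m K, e n * (b : ℤ) ^ (K - n)) := by
    rw [Finset.sum_filter, Finset.mul_sum, ← Finset.sum_neg_distrib]
    apply Finset.sum_congr rfl
    intro n _
    by_cases h : e n = 0
    · rw [h]; simp
    · rw [if_pos h, pow_add]; ring
  rw [h1, G_split b e hm]
  have h2 : (b : ℤ) ^ K = (b : ℤ) ^ m * (b : ℤ) ^ (K - m) := by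
    rw [← pow_add]; congr 1; omega
  refine ⟨(b : ℤ) ^ m * (A * G a c L) + B * G b e m * (a : ℤ) ^ L - (b : ℤ) ^ m * C * (a : ℤ) ^ L, ?_⟩
  rw [h2]
  ring

end Pool.Agent.TH796.CB
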