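import Mathlib
import Pool.Agent.TH796.CB.TB2

set_option autoImplicit false

open Finset

namespace Pool.Agent.TH796.CB

lemma pow_eq_exp {g : ℕ} (hg : 2 ≤ g) (n : ℕ) : (g : ℝ) ^ n = Real.exp (n * Real.log g) := by
  have hg0 : (0 : ℝ) < g := by
    have : 0 < g := by omega
    exact_mod_cast this
  rw [Real.exp_nat_mul, Real.exp_log hg0]

set_option maxHeartbeats 4000000 in
/-- no long common gap where the second expansion is sparse -/
theorem nogap {a b : ℕ} (ha : 2 ≤ a) (hb : 2 ≤ b) (hab : a.Coprime b) {A B C : ℤ} (hA : A ≠ 0)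
    {c e : ℕ → ℤ} {H x y : ℝ}
    (hc : ∀ n, |(c n : ℝ)| ≤ H) (he : ∀ n, |(e n : ℝ)| ≤ H)
    (hx : HasSum (fun n => (c n : ℝ) / (a : ℝ) ^ n) x)
    (hy : HasSum (fun n => (e n : ℝ) / (b : ℝ) ^ n) y) (hirr : Irrational x)
    (hrel : A * x + B * y = C) (M : ℕ) (Λ : ℝ) (hΛ : 0 < Λ) :
    ∃ s0 : ℝ, ∀ s : ℝ, s0 ≤ s → ∀ u : ℝ, 2 * s ≤ u → u ≤ Λ * s →
      (win e (s / Real.log b) ((u + 2 * s) / Real.log b)).card ≤ M →
      win e (u / Real.log b) ((u + 2 * s) / Real.log b) = ∅ →
      win c (u / Real.log a) ((u + 2 * s) / Real.log a) = ∅ → False := by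
  set la : ℝ := Real.log a with hla
  set lb : ℝ := Real.log b with hlb
  have ha2 : (2 : ℝ) ≤ a := by exact_mod_cast ha
  have hb2 : (2 : ℝ) ≤ b := by exact_mod_cast hb
  have ha0 : (0 : ℝ) < a := by linarith
  have hb0 : (0 : ℝ) < b := by linarith
  have hla0 : 0 < la := Real.log_pos (by linarith)
  have hlb0 : 0 < lb := Real.log_pos (by linarith)
  have hH : 0 ≤ H := (abs_nonneg _).trans (hc 0)
  -- constants
  set κ : ℝ := (Λ + 1) / la + (Λ + 1) / lb with hκ
  have hκ0 : 0 < κ := by positivity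
  have hκa : (Λ + 1) / la ≤ κ := by
    have : 0 < (Λ + 1) / lb := by positivity
    rw [hκ]; linarith
  have hκb : (Λ + 1) / lb ≤ κ := by
    have : 0 < (Λ + 1) / la := by positivity
    rw [hκ]; linarith
  set δ : ℝ := min (1 / κ) (min (1 / 8) (1 / (8 * (M + 1) * lb))) with hδ
  have hδ0 : 0 < δ := by
    rw [hδ]
    exact lt_min (by positivity) (lt_min (by norm_num) (by positivity))
  have hδ1 : δ * κ ≤ 1 := by
    have : δ ≤ 1 / κ := min_le_left _ _
    calc δ * κ ≤ 1 / κ * κ := mul_le_mul_of_nonneg_right this hκ0.le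
      _ = 1 := by field_simp
  have hδ2 : δ ≤ 1 / 8 := (min_le_right _ _).trans (min_le_left _ _)
  have hδ3 : δ * (8 * (M + 1) * lb) ≤ 1 := by
    have : δ ≤ 1 / (8 * (M + 1) * lb) := (min_le_right _ _).trans (min_le_right _ _)
    calc δ * (8 * (M + 1) * lb) ≤ 1 / (8 * (M + 1) * lb) * (8 * (M + 1) * lb) :=
          mul_le_mul_of_nonneg_right this (by positivity)
      _ = 1 := by field_simp
  obtain ⟨ε, hε, N0, hmerge⟩ := mergeSet ha hb hab M δ hδ0
  obtain ⟨ρ, hρ, hdist⟩ := dist_pos (x := (A : ℝ) * x) (hirr.intCast_mul hA)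
  set C2 : ℝ := a * (|(A : ℝ)| * H * a + |(B : ℝ)| * H * b) with hC2
  have hC20 : 0 ≤ C2 := by positivity
  set C3 : ℝ := |(A : ℝ)| * H * a with hC3
  have hC30 : 0 ≤ C3 := by positivity
  -- the lower bound for `s`
  set s0 : ℝ := max (max (max 1 (8 * lb)) (max (8 * la) N0))
    (max (max (4 * C2) (2 * |(B : ℝ)| * H / ε)) (C3 / ρ)) with hs0
  refine ⟨s0, ?_⟩
  intro s hs u hu1 hu2 hcard hwe hwc
  have hs1 : 1 ≤ s := le_trans (le_trans (le_trans (le_max_left _ _) (le_max_left _ _))
    (le_max_left _ _)) hs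
  have hs2 : 8 * lb ≤ s := le_trans (le_trans (le_trans (le_max_right _ _) (le_max_left _ _))
    (le_max_left _ _)) hs
  have hs3 : 8 * la ≤ s := le_trans (le_trans (le_trans (le_max_left _ _) (le_max_right _ _))
    (le_max_left _ _)) hs
  have hs4 : (N0 : ℝ) ≤ s := le_trans (le_trans (le_trans (le_max_right _ _) (le_max_right _ _))
    (le_max_left _ _)) hs
  have hs5 : 4 * C2 ≤ s := le_trans (le_trans (le_trans (le_max_left _ _) (le_max_left _ _))
    (le_max_right _ _)) hs
  have hs6 : 2 * |(B : ℝ)| * H / ε ≤ s := le_trans (le_trans (le_trans (le_max_right _ _)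
    (le_max_left _ _)) (le_max_right _ _)) hs
  have hs7 : C3 / ρ ≤ s := le_trans (le_trans (le_max_right _ _) (le_max_right _ _)) hs
  have hspos : 0 < s := by linarith
  have hupos : 0 < u := by linarith
  -- the indices
  set L : ℕ := ⌊u / la⌋₊ + 1 with hL
  set K : ℕ := ⌊L * la / lb⌋₊ with hK
  set L' : ℕ := ⌊(u + 2 * s) / la⌋₊ with hL'
  set K' : ℕ := ⌊(u + 2 * s) / lb⌋₊ with hK'
  have hL1 : u < L * la := by
    have := Nat.lt_floor_add_one (u / la)
    rw [div_lt_iff₀ hla0] at this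
    rw [hL]; push_cast; exact this
  have hL2 : L * la ≤ u + la := by
    have := Nat.floor_le (a := u / la) (by positivity)
    rw [le_div_iff₀ hla0] at this
    rw [hL]; push_cast; linarith
  have hK1 : K * lb ≤ L * la := by
    have := Nat.floor_le (a := L * la / lb) (by positivity)
    rwa [le_div_iff₀ hlb0] at this
  have hK2 : L * la < (K + 1) * lb := by
    have := Nat.lt_floor_add_one (L * la / lb)
    rwa [div_lt_iff₀ hlb0] at this
  have hL'1 : u + 2 * s < (L' + 1) * la := by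
    have := Nat.lt_floor_add_one ((u + 2 * s) / la)
    rwa [div_lt_iff₀ hla0] at this
  have hK'1 : u + 2 * s < (K' + 1) * lb := by
    have := Nat.lt_floor_add_one ((u + 2 * s) / lb)
    rwa [div_lt_iff₀ hlb0] at this
  have hLL' : L ≤ L' := by
    have h1 : (L : ℝ) * la ≤ u + 2 * s := by linarith
    rw [hL', Nat.le_floor_iff (by positivity), le_div_iff₀ hla0]
    exact h1
  have hKK' : K ≤ K' := by
    rw [hK', Nat.le_floor_iff (by positivity), le_div_iff₀ hlb0]
    linarith
  have h0c : ∀ n, L < n → n ≤ L' → c n = 0 := by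
    intro n hn1 hn2
    by_contra hne
    have : n ∈ win c (u / la) ((u + 2 * s) / la) := by
      unfold win
      rw [Finset.mem_filter, Finset.mem_Ioc]
      exact ⟨⟨by omega, hn2⟩, hne⟩
    rw [hwc] at this
    exact absurd this (Finset.notMem_empty _)
  have h0e : ∀ n, K < n → n ≤ K' → e n = 0 := by
    intro n hn1 hn2
    by_contra hne
    have h1 : ⌊u / lb⌋₊ < n := by
      rw [Nat.floor_lt (by positivity), div_lt_iff₀ hlb0]
      have h2 : ((K : ℝ) + 1) ≤ n := by exact_mod_cast hn1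
      have h3 := mul_le_mul_of_nonneg_right h2 hlb0.le
      linarith only [h3, hK2, hL1]
    have : n ∈ win e (u / lb) ((u + 2 * s) / lb) := by
      unfold win
      rw [Finset.mem_filter, Finset.mem_Ioc]
      exact ⟨⟨h1, hn2⟩, hne⟩
    rw [hwe] at this
    exact absurd this (Finset.notMem_empty _)
  -- powers
  have hpa : 1 / (a : ℝ) ^ L' ≤ a * Real.exp (-(u + 2 * s)) := by
    rw [pow_eq_exp ha, ← hla, one_div, ← Real.exp_neg]
    have h1 : (a : ℝ) = Real.exp la := by rw [hla, Real.exp_log ha0]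
    calc Real.exp (-(L' * la)) ≤ Real.exp (la + -(u + 2 * s)) := by
          apply Real.exp_le_exp.2; linarith
      _ = a * Real.exp (-(u + 2 * s)) := by rw [Real.exp_add, ← h1]
  have hpb : 1 / (b : ℝ) ^ K' ≤ b * Real.exp (-(u + 2 * s)) := by
    rw [pow_eq_exp hb, ← hlb, one_div, ← Real.exp_neg]
    have h1 : (b : ℝ) = Real.exp lb := by rw [hlb, Real.exp_log hb0]
    calc Real.exp (-(K' * lb)) ≤ Real.exp (lb + -(u + 2 * s)) := by
          apply Real.exp_le_exp.2; linarith
      _ = b * Real.exp (-(u + 2 * s)) := by rw [Real.exp_add, ← h1]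
  have haL : (a : ℝ) ^ L ≤ a * Real.exp u := by
    rw [pow_eq_exp ha, ← hla]
    have h1 : (a : ℝ) = Real.exp la := by rw [hla, Real.exp_log ha0]
    calc Real.exp (L * la) ≤ Real.exp (la + u) := by
          apply Real.exp_le_exp.2; linarith
      _ = a * Real.exp u := by rw [Real.exp_add, ← h1]
  -- the integer `X`
  obtain ⟨X, hX⟩ : ∃ X : ℤ, X = A * G a c L * (b : ℤ) ^ K + B * G b e K * (a : ℤ) ^ L -
    C * ((a : ℤ) ^ L * (b : ℤ) ^ K) := ⟨_, rfl⟩
  have hXle : |(X : ℝ)| ≤ (b : ℝ) ^ K * (C2 * Real.exp (-(2 * s))) := by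
    have h1 := X_small ha hb hc he hx hy hrel hLL' hKK' h0c h0e
    rw [← hX] at h1
    refine h1.trans ?_
    have h2 : |(A : ℝ)| * (H / (a : ℝ) ^ L') + |(B : ℝ)| * (H / (b : ℝ) ^ K') ≤
        (|(A : ℝ)| * H * a + |(B : ℝ)| * H * b) * Real.exp (-(u + 2 * s)) := by
      have e1 : |(A : ℝ)| * (H / (a : ℝ) ^ L') ≤ |(A : ℝ)| * H * a * Real.exp (-(u + 2 * s)) := by
        calc |(A : ℝ)| * (H / (a : ℝ) ^ L') = |(A : ℝ)| * H * (1 / (a : ℝ) ^ L') := by ring
          _ ≤ |(A : ℝ)| * H * (a * Real.exp (-(u + 2 * s))) :=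
            mul_le_mul_of_nonneg_left hpa (by positivity)
          _ = _ := by ring
      have e2 : |(B : ℝ)| * (H / (b : ℝ) ^ K') ≤ |(B : ℝ)| * H * b * Real.exp (-(u + 2 * s)) := by
        calc |(B : ℝ)| * (H / (b : ℝ) ^ K') = |(B : ℝ)| * H * (1 / (b : ℝ) ^ K') := by ring
          _ ≤ |(B : ℝ)| * H * (b * Real.exp (-(u + 2 * s))) :=
            mul_le_mul_of_nonneg_left hpb (by positivity)
          _ = _ := by ring
      rw [add_mul]; linarith
    calc (a : ℝ) ^ L * (b : ℝ) ^ K * (|(A : ℝ)| * (H / (a : ℝ) ^ L') +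
          |(B : ℝ)| * (H / (b : ℝ) ^ K')) ≤
        (a * Real.exp u) * (b : ℝ) ^ K * ((|(A : ℝ)| * H * a + |(B : ℝ)| * H * b) *
          Real.exp (-(u + 2 * s))) := by
          apply mul_le_mul _ h2 (by positivity) (by positivity)
          exact mul_le_mul_of_nonneg_right haL (by positivity)
      _ = (b : ℝ) ^ K * (C2 * (Real.exp u * Real.exp (-(u + 2 * s)))) := by rw [hC2]; ring
      _ = (b : ℝ) ^ K * (C2 * Real.exp (-(2 * s))) := by
          rw [← Real.exp_add]; congr 3; ring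
  -- the free interval
  set m0 : ℕ := ⌊s / lb⌋₊ + 1 with hm0
  set w : ℕ := ⌊s / (4 * (M + 1) * lb)⌋₊ with hw
  have hm01 : s < m0 * lb := by
    have := Nat.lt_floor_add_one (s / lb)
    rw [div_lt_iff₀ hlb0] at this
    rw [hm0]; push_cast; exact this
  have hm02 : m0 * lb ≤ s + lb := by
    have := Nat.floor_le (a := s / lb) (by positivity)
    rw [le_div_iff₀ hlb0] at this
    rw [hm0]; push_cast; linarith
  have hw1 : w * (4 * (M + 1) * lb) ≤ s := by
    have := Nat.floor_le (a := s / (4 * (M + 1) * lb)) (by positivity)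
    rwa [le_div_iff₀ (by positivity)] at this
  have hw2 : s < (w + 1) * (4 * (M + 1) * lb) := by
    have := Nat.lt_floor_add_one (s / (4 * (M + 1) * lb))
    rwa [div_lt_iff₀ (by positivity)] at this
  obtain ⟨i, hi, hfree⟩ := free_interval _ M m0 w hcard
  set m : ℕ := m0 + i * w with hm
  have hmlb : m * lb ≤ s + lb + s / 4 := by
    have h1 : (i : ℝ) ≤ M := by exact_mod_cast hi
    have h2 : (m : ℝ) = m0 + i * w := by rw [hm]; push_cast; ring
    rw [h2]
    have h3 : (i : ℝ) * w * lb ≤ s / 4 := by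
      have h4 : (i : ℝ) * w * lb ≤ (M + 1) * w * lb := by
        apply mul_le_mul_of_nonneg_right _ hlb0.le
        apply mul_le_mul_of_nonneg_right _ (Nat.cast_nonneg _)
        linarith only [h1]
      have h5 : ((M : ℝ) + 1) * w * lb = w * (4 * (M + 1) * lb) / 4 := by ring
      linarith only [h4, h5, hw1]
    have h6 : ((m0 : ℝ) + i * w) * lb = m0 * lb + i * w * lb := by ring
    linarith only [h3, h6, hm02]
  have hmlow : s < m * lb := by
    refine lt_of_lt_of_le hm01 ?_
    apply mul_le_mul_of_nonneg_right _ hlb0.le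
    rw [hm]
    exact_mod_cast Nat.le_add_right _ _
  have hmK : m ≤ K := by
    have h1 : (m : ℝ) * lb < (K + 1) * lb := by
      linarith only [hmlb, hK2, hL1, hu1, hs2, hspos]
    have h2 : (m : ℝ) < K + 1 := lt_of_mul_lt_mul_right h1 hlb0.le
    have h3 : m < K + 1 := by exact_mod_cast h2
    omega
  set N : ℕ := ⌈s⌉₊ with hN
  have hN1 : s ≤ N := Nat.le_ceil _
  have hN2 : (N : ℝ) ≤ 2 * s := by
    have := Nat.ceil_lt_add_one hspos.le
    rw [← hN] at this
    linarith
  have hNN0 : N0 ≤ N := by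
    have : (N0 : ℝ) ≤ N := hs4.trans hN1
    exact_mod_cast this
  have hδN : δ * N ≤ w + 1 := by
    have h1 : δ * N ≤ δ * (2 * s) := mul_le_mul_of_nonneg_left hN2 hδ0.le
    have h2 : δ * (2 * s) ≤ δ * (2 * ((w + 1) * (4 * (M + 1) * lb))) := by
      apply mul_le_mul_of_nonneg_left _ hδ0.le
      linarith
    have h3 : δ * (2 * ((w + 1) * (4 * (M + 1) * lb))) = (δ * (8 * (M + 1) * lb)) * (w + 1) := by
      ring
    have h4 : (δ * (8 * (M + 1) * lb)) * (w + 1) ≤ 1 * (w + 1) :=
      mul_le_mul_of_nonneg_right hδ3 (by positivity)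
    linarith
  have hδN2 : δ * N ≤ s / 4 := by
    have h1 : δ * N ≤ 1 / 8 * (2 * s) :=
      mul_le_mul hδ2 hN2 (Nat.cast_nonneg _) (by norm_num)
    linarith
  set T : Finset ℕ := (Finset.Ioc m K).filter (fun n => e n ≠ 0) with hT
  have hTwin : T ⊆ win e (s / lb) ((u + 2 * s) / lb) := by
    intro n hn
    rw [hT, Finset.mem_filter, Finset.mem_Ioc] at hn
    unfold win
    rw [Finset.mem_filter, Finset.mem_Ioc]
    refine ⟨⟨?_, hn.1.2.trans hKK'⟩, hn.2⟩
    have h1 : m0 ≤ m := by rw [hm]; exact Nat.le_add_right _ _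
    omega
  have hXzero : (b : ℤ) ^ m * X = 0 := by
    apply hmerge N hNN0 L K T ((Finset.card_le_card hTwin).trans hcard) (fun n => K - n + m)
      _ _ _ _ (fun n => -(B * e n)) _ ((b : ℤ) ^ m * X)
    · rw [hX]
      exact X_congr hmK
    · -- size
      push_cast
      rw [abs_mul, abs_of_pos (by positivity : (0 : ℝ) < (b : ℝ) ^ m)]
      have h1 : (b : ℝ) ^ m ≤ Real.exp (s + lb + s / 4) := by
        rw [pow_eq_exp hb, ← hlb]
        exact Real.exp_le_exp.2 hmlb
      have h2 : C2 ≤ Real.exp (s / 4) := by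
        have := Real.add_one_le_exp (s / 4)
        linarith
      calc (b : ℝ) ^ m * |(X : ℝ)| ≤ Real.exp (s + lb + s / 4) *
            ((b : ℝ) ^ K * (C2 * Real.exp (-(2 * s)))) :=
            mul_le_mul h1 hXle (abs_nonneg _) (Real.exp_pos _).le
        _ ≤ Real.exp (s + lb + s / 4) * ((b : ℝ) ^ K * (Real.exp (s / 4) * Real.exp (-(2 * s)))) := by
            apply mul_le_mul_of_nonneg_left _ (Real.exp_pos _).le
            apply mul_le_mul_of_nonneg_left _ (by positivity)
            exact mul_le_mul_of_nonneg_right h2 (Real.exp_pos _).le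
        _ = (b : ℝ) ^ K * Real.exp ((s + lb + s / 4) + (s / 4 + -(2 * s))) := by
            rw [Real.exp_add (s + lb + s / 4), Real.exp_add (s / 4)]; ring
        _ ≤ (b : ℝ) ^ K * Real.exp (-(δ * N)) := by
            apply mul_le_mul_of_nonneg_left _ (by positivity)
            apply Real.exp_le_exp.2
            linarith
    · -- `δ L ≤ N`
      have h1 : (L : ℝ) ≤ κ * s := by
        have h2 : (L : ℝ) ≤ (u + la) / la := by
          rw [le_div_iff₀ hla0]; exact hL2
        have h3 : (u + la) / la ≤ (Λ + 1) / la * s := by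
          rw [div_mul_eq_mul_div]
          apply div_le_div_of_nonneg_right _ hla0.le
          have h4 : (Λ + 1) * s = Λ * s + s := by ring
          linarith only [h4, hu2, hs3, hla0]
        exact h2.trans (h3.trans (mul_le_mul_of_nonneg_right hκa hspos.le))
      calc δ * (L : ℝ) ≤ δ * (κ * s) := mul_le_mul_of_nonneg_left h1 hδ0.le
        _ = δ * κ * s := by ring
        _ ≤ 1 * s := mul_le_mul_of_nonneg_right hδ1 hspos.le
        _ ≤ N := by linarith
    · have h1 : (K : ℝ) ≤ κ * s := by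
        have h2 : (K : ℝ) ≤ (u + la) / lb := by
          rw [le_div_iff₀ hlb0]; linarith
        have h3 : (u + la) / lb ≤ (Λ + 1) / lb * s := by
          rw [div_mul_eq_mul_div]
          apply div_le_div_of_nonneg_right _ hlb0.le
          have h4 : (Λ + 1) * s = Λ * s + s := by ring
          linarith only [h4, hu2, hs3, hla0]
        exact h2.trans (h3.trans (mul_le_mul_of_nonneg_right hκb hspos.le))
      calc δ * (K : ℝ) ≤ δ * (κ * s) := mul_le_mul_of_nonneg_left h1 hδ0.le
        _ = δ * κ * s := by ring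
        _ ≤ 1 * s := mul_le_mul_of_nonneg_right hδ1 hspos.le
        _ ≤ N := by linarith
    · rw [pow_eq_exp ha, pow_eq_exp hb, ← hla, ← hlb]
      exact Real.exp_le_exp.2 hK1
    · -- the exponents
      intro n hn
      have hn' := hn
      rw [hT, Finset.mem_filter, Finset.mem_Ioc] at hn
      have h1 : m + w < n := by
        by_contra hcon
        apply hfree n _ (hTwin hn')
        rw [Finset.mem_Ioc]
        refine ⟨hn.1.1, ?_⟩
        have : m0 + (i + 1) * w = m + w := by rw [hm]; ring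
        omega
      have h2 : (K - n + m) + (w + 1) ≤ K := by omega
      have h3 : ((K - n + m : ℕ) : ℝ) + (w + 1) ≤ K := by exact_mod_cast h2
      linarith
    · -- the coefficients
      intro n _
      push_cast
      rw [abs_neg, abs_mul]
      have h1 : |(B : ℝ)| * |(e n : ℝ)| ≤ |(B : ℝ)| * H :=
        mul_le_mul_of_nonneg_left (he n) (abs_nonneg _)
      have h2 : |(B : ℝ)| * H ≤ ε * N := by
        rw [div_le_iff₀ hε] at hs6
        have h3 : s * ε ≤ ε * N := by rw [mul_comm]; exact mul_le_mul_of_nonneg_left hN1 hε.le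
        have h4 : 0 ≤ |(B : ℝ)| * H := by positivity
        have h5 : 2 * |(B : ℝ)| * H = 2 * (|(B : ℝ)| * H) := by ring
        linarith only [h3, h4, h5, hs6]
      have h3 := Real.add_one_le_exp (ε * N)
      linarith
  have hX0 : X = 0 := by
    rcases mul_eq_zero.1 hXzero with h | h
    · exfalso
      have : (b : ℤ) ≠ 0 := by
        have : b ≠ 0 := by omega
        exact_mod_cast this
      exact pow_ne_zero _ this h
    · exact h
  -- `A x` is close to an integer
  have hdvd : (a : ℤ) ^ L ∣ A * G a c L := by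
    have h1 : (a : ℤ) ^ L ∣ A * G a c L * (b : ℤ) ^ K := by
      refine ⟨C * (b : ℤ) ^ K - B * G b e K, ?_⟩
      rw [hX0] at hX
      linear_combination (-1 : ℤ) * hX
    have hcop : IsCoprime ((a : ℤ) ^ L) ((b : ℤ) ^ K) :=
      IsCoprime.pow (Nat.isCoprime_iff_coprime.2 hab)
    exact hcop.dvd_of_dvd_mul_right h1
  obtain ⟨z, hz⟩ := hdvd
  have h1 := tail_le ha hc hx hLL' h0c
  have h2 : |(A : ℝ) * x - z| ≤ C3 * Real.exp (-(u + 2 * s)) := by
    have e1 : (z : ℝ) = A * ((G a c L : ℝ) / (a : ℝ) ^ L) := by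
      have h3 : ((A * G a c L : ℤ) : ℝ) = (((a : ℤ) ^ L * z : ℤ) : ℝ) := by rw [hz]
      push_cast at h3
      rw [← mul_div_assoc, h3]
      field_simp
    rw [e1, ← mul_sub, abs_mul, abs_sub_comm]
    calc |(A : ℝ)| * |(G a c L : ℝ) / (a : ℝ) ^ L - x| ≤ |(A : ℝ)| * (H / (a : ℝ) ^ L') :=
          mul_le_mul_of_nonneg_left h1 (abs_nonneg _)
      _ = |(A : ℝ)| * H * (1 / (a : ℝ) ^ L') := by ring
      _ ≤ |(A : ℝ)| * H * (a * Real.exp (-(u + 2 * s))) :=
          mul_le_mul_of_nonneg_left hpa (by positivity)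
      _ = C3 * Real.exp (-(u + 2 * s)) := by rw [hC3]; ring
  have h3 := (hdist z).trans h2
  have h4 : C3 ≤ ρ * s := by
    rw [div_le_iff₀ hρ] at hs7
    linarith
  have h5 : s < Real.exp (u + 2 * s) := by
    have := Real.add_one_le_exp (u + 2 * s)
    linarith
  rw [Real.exp_neg, ← div_eq_mul_inv, le_div_iff₀ (Real.exp_pos _)] at h3
  have h6 := le_of_mul_le_mul_left (h3.trans h4) hρ
  linarith only [h5, h6]

end Pool.Agent.TH796.CB
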