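import Mathlib
import Pool.Agent.TH796.CB.TB3

set_option autoImplicit false

open Finset

namespace Pool.Agent.TH796.CB

/-- a pair of expansions: bounded integer digits in the bases `a` and `b` of two numbers with an integer
linear relation -/
structure Pair (a b : ℕ) (c e : ℕ → ℤ) : Prop where
  ha : 2 ≤ a
  hb : 2 ≤ b
  hab : a.Coprime b
  bd : ∃ H : ℝ, (∀ n, |(c n : ℝ)| ≤ H) ∧ (∀ n, |(e n : ℝ)| ≤ H)
  rel : ∃ (x y : ℝ) (A B C : ℤ), A ≠ 0 ∧ B ≠ 0 ∧ Irrational x ∧
    HasSum (fun n => (c n : ℝ) / (a : ℝ) ^ n) x ∧ HasSum (fun n => (e n : ℝ) / (b : ℝ) ^ n) y ∧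
    A * x + B * y = C

/-- number of nonzero digits at the places `n` of scale `n log g ≤ v`, in both bases -/
noncomputable def FF (a b : ℕ) (c e : ℕ → ℤ) (v : ℝ) : ℕ :=
  cnt c (v / Real.log a) + cnt e (v / Real.log b)

lemma FF_mono {a b : ℕ} (ha : 2 ≤ a) (hb : 2 ≤ b) (c e : ℕ → ℤ) {u v : ℝ} (h : u ≤ v) :
    FF a b c e u ≤ FF a b c e v := by
  have hla : 0 < Real.log a := Real.log_pos (by
    have : (2 : ℝ) ≤ a := by exact_mod_cast ha
    linarith)
  have hlb : 0 < Real.log b := Real.log_pos (by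
    have : (2 : ℝ) ≤ b := by exact_mod_cast hb
    linarith)
  unfold FF
  exact Nat.add_le_add (cnt_mono _ (div_le_div_of_nonneg_right h hla.le))
    (cnt_mono _ (div_le_div_of_nonneg_right h hlb.le))

/-- **windows** -/
theorem growth {a b : ℕ} {c e : ℕ → ℤ} (h : Pair a b c e) (M : ℕ) :
    ∃ s0 : ℝ, ∀ s : ℝ, s0 ≤ s → FF a b c e s + M ≤ FF a b c e ((2 * M + 2) * s) := by
  obtain ⟨ha, hb, hab, ⟨H, hc, he⟩, x, y, A, B, C, hA, _, hirr, hx, hy, hrel⟩ := h
  have hla : 0 < Real.log a := Real.log_pos (by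
    have : (2 : ℝ) ≤ a := by exact_mod_cast ha
    linarith)
  have hlb : 0 < Real.log b := Real.log_pos (by
    have : (2 : ℝ) ≤ b := by exact_mod_cast hb
    linarith)
  obtain ⟨s0, hs0⟩ := nogap ha hb hab hA hc he hx hy hirr hrel M (2 * M + 2) (by positivity)
  refine ⟨max s0 0, ?_⟩
  intro s hs
  have hs1 : s0 ≤ s := (le_max_left _ _).trans hs
  have hs2 : 0 ≤ s := (le_max_right _ _).trans hs
  have hle : s ≤ (2 * M + 2) * s := by
    have hM : (0 : ℝ) ≤ M := Nat.cast_nonneg _
    nlinarith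
  by_cases hcard : (win e (s / Real.log b) ((2 * M + 2) * s / Real.log b)).card ≤ M
  · have hstep : ∀ j : ℕ, j < M → FF a b c e (2 * s + 2 * j * s) + 1 ≤
        FF a b c e (2 * s + 2 * (j + 1 : ℕ) * s) := by
      intro j hj
      have hu1 : 2 * s ≤ 2 * s + 2 * j * s := by
        have : (0 : ℝ) ≤ j := Nat.cast_nonneg _
        nlinarith
      have hjM : (j : ℝ) + 1 ≤ M := by exact_mod_cast hj
      have hu2 : (2 * s + 2 * j * s) + 2 * s ≤ (2 * M + 2) * s := by nlinarith
      have hu3 : 2 * s + 2 * j * s ≤ (2 * M + 2) * s := by linarith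
      have hcast : 2 * s + 2 * ((j + 1 : ℕ) : ℝ) * s = (2 * s + 2 * j * s) + 2 * s := by
        push_cast; ring
      rw [hcast]
      set u : ℝ := 2 * s + 2 * j * s with hu
      have hle' : u ≤ u + 2 * s := by linarith
      have e1 := cnt_add_win c (u := u / Real.log a) (v := (u + 2 * s) / Real.log a)
        (div_le_div_of_nonneg_right hle' hla.le)
      have e2 := cnt_add_win e (u := u / Real.log b) (v := (u + 2 * s) / Real.log b)
        (div_le_div_of_nonneg_right hle' hlb.le)
      unfold FF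
      by_contra hcon
      have e3 : (win c (u / Real.log a) ((u + 2 * s) / Real.log a)).card = 0 := by omega
      have e4 : (win e (u / Real.log b) ((u + 2 * s) / Real.log b)).card = 0 := by omega
      refine hs0 s hs1 u hu1 hu3 ?_ (Finset.card_eq_zero.1 e4) (Finset.card_eq_zero.1 e3)
      refine le_trans (Finset.card_le_card ?_) hcard
      intro n hn
      unfold win at hn ⊢
      rw [Finset.mem_filter, Finset.mem_Ioc] at hn ⊢
      refine ⟨⟨hn.1.1, hn.1.2.trans ?_⟩, hn.2⟩
      exact Nat.floor_le_floor (div_le_div_of_nonneg_right hu2 hlb.le)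
    have hind : ∀ j : ℕ, j ≤ M → FF a b c e (2 * s) + j ≤ FF a b c e (2 * s + 2 * j * s) := by
      intro j
      induction j with
      | zero => intro _; simp
      | succ j ih =>
        intro hj
        have h1 := ih (by omega)
        have h2 := hstep j (by omega)
        omega
    have h1 := hind M le_rfl
    have h2 : 2 * s + 2 * (M : ℝ) * s = (2 * M + 2) * s := by ring
    rw [h2] at h1
    have h3 := FF_mono ha hb c e (show s ≤ 2 * s by linarith)
    omega
  · have e2 := cnt_add_win e (u := s / Real.log b) (v := (2 * M + 2) * s / Real.log b)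
      (div_le_div_of_nonneg_right hle hlb.le)
    have e1 := cnt_mono c (u := s / Real.log a) (v := (2 * M + 2) * s / Real.log a)
      (div_le_div_of_nonneg_right hle hla.le)
    unfold FF
    omega

lemma exists_M (T : ℝ) (hT : 0 < T) : ∃ M : ℕ, 1 ≤ M ∧ 2 * T * Real.log (2 * M + 2) ≤ M := by
  have h1 := Real.isLittleO_log_id_atTop.bound (show (0 : ℝ) < 1 / (8 * T) by positivity)
  obtain ⟨z0, hz0⟩ := Filter.eventually_atTop.1 h1
  refine ⟨max 1 ⌈z0⌉₊, le_max_left _ _, ?_⟩
  set M : ℕ := max 1 ⌈z0⌉₊ with hM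
  have hM1 : (1 : ℝ) ≤ M := by exact_mod_cast le_max_left 1 ⌈z0⌉₊
  have hM2 : z0 ≤ M := (Nat.le_ceil z0).trans (by exact_mod_cast le_max_right 1 ⌈z0⌉₊)
  have h2 := hz0 (2 * M + 2) (by linarith)
  rw [Real.norm_eq_abs, Real.norm_eq_abs, id] at h2
  have h3 := le_abs_self (Real.log (2 * M + 2))
  rw [abs_of_pos (by linarith : (0 : ℝ) < 2 * M + 2)] at h2
  have h4 : Real.log (2 * M + 2) ≤ 1 / (8 * T) * (2 * M + 2) := h3.trans h2
  calc 2 * T * Real.log (2 * M + 2) ≤ 2 * T * (1 / (8 * T) * (2 * M + 2)) :=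
        mul_le_mul_of_nonneg_left h4 (by positivity)
    _ = (2 * M + 2) / 4 := by field_simp; ring
    _ ≤ M := by linarith

/-- **superlogarithmic growth** -/
theorem superlog {a b : ℕ} {c e : ℕ → ℤ} (h : Pair a b c e) (T : ℝ) :
    ∃ N0 : ℕ, ∀ N : ℕ, N0 ≤ N → T * Real.log N ≤ (cnt c N : ℝ) + cnt e N := by
  have ha := h.ha
  have hb := h.hb
  have ha2 : (2 : ℝ) ≤ a := by exact_mod_cast ha
  have hb2 : (2 : ℝ) ≤ b := by exact_mod_cast hb
  set T' : ℝ := max T 1 with hT'
  have hT'1 : 1 ≤ T' := le_max_right _ _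
  have hT'0 : 0 < T' := by linarith
  obtain ⟨M, hM1, hM⟩ := exists_M T' hT'0
  obtain ⟨s1, hs1⟩ := growth h M
  set s0 : ℝ := max s1 1 with hs0
  have hs01 : 1 ≤ s0 := le_max_right _ _
  set ρ : ℝ := 2 * M + 2 with hρ
  have hMr : (1 : ℝ) ≤ M := by exact_mod_cast hM1
  have hρ1 : 4 ≤ ρ := by rw [hρ]; linarith
  have hlρ : 0 < Real.log ρ := Real.log_pos (by linarith)
  have hgrow : ∀ I : ℕ, M * I ≤ FF a b c e (s0 * ρ ^ I) := by
    intro I
    induction I with
    | zero => simp
    | succ I ih =>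
      have h1 := hs1 (s0 * ρ ^ I) (by
        have h2 : s1 ≤ s0 := le_max_left _ _
        have h3 : (1 : ℝ) ≤ ρ ^ I := one_le_pow₀ (by linarith)
        nlinarith)
      have h2 : (2 * (M : ℝ) + 2) * (s0 * ρ ^ I) = s0 * ρ ^ (I + 1) := by
        rw [pow_succ, hρ]; ring
      rw [h2] at h1
      calc M * (I + 1) = M * I + M := by ring
        _ ≤ _ := by omega
  set D : ℝ := Real.log (s0 / Real.log 2) with hD
  have hl2 : 0 < Real.log 2 := Real.log_pos (by norm_num)
  refine ⟨max 1 ⌈Real.exp (max D 0 + (2 * T' * max D 0 + M) / T')⌉₊, ?_⟩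
  intro N hN
  have hN1 : 1 ≤ N := (le_max_left _ _).trans hN
  have hN1r : (1 : ℝ) ≤ N := by exact_mod_cast hN1
  have hN0 : (0 : ℝ) < N := by linarith
  have hlogN : max D 0 + (2 * T' * max D 0 + M) / T' ≤ Real.log N := by
    rw [Real.le_log_iff_exp_le hN0]
    refine (Nat.le_ceil _).trans ?_
    exact_mod_cast (le_max_right _ _).trans hN
  have hlogN1 : D ≤ Real.log N := by
    have h1 : D ≤ max D 0 := le_max_left _ _
    have h2 : 0 ≤ (2 * T' * max D 0 + M) / T' := by
      have : 0 ≤ max D 0 := le_max_right _ _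
      positivity
    linarith
  have hlogN2 : 2 * T' * D + M ≤ T' * Real.log N := by
    have h1 : D ≤ max D 0 := le_max_left _ _
    have h0 : 0 ≤ max D 0 := le_max_right _ _
    have h2 : (2 * T' * max D 0 + M) / T' ≤ Real.log N := by linarith
    rw [div_le_iff₀ hT'0] at h2
    nlinarith
  -- the number of windows
  set v : ℝ := N * Real.log 2 with hv
  have hv0 : 0 < v := by positivity
  have hlogv : Real.log (v / s0) = Real.log N - D := by
    rw [hD, hv, Real.log_div (by positivity) (by positivity), Real.log_mul (by positivity) (by positivity),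
      Real.log_div (by positivity) (by positivity)]
    ring
  set I : ℕ := ⌊Real.log (v / s0) / Real.log ρ⌋₊ with hI
  have hnn : 0 ≤ Real.log (v / s0) / Real.log ρ := by
    rw [hlogv]
    apply div_nonneg _ hlρ.le
    linarith
  have hI1 : (I : ℝ) * Real.log ρ ≤ Real.log (v / s0) := by
    have := Nat.floor_le hnn
    rwa [le_div_iff₀ hlρ] at this
  have hI2 : Real.log (v / s0) / Real.log ρ < I + 1 := Nat.lt_floor_add_one _
  have hle : s0 * ρ ^ I ≤ v := by
    have h1 : ρ ^ I ≤ v / s0 := by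
      rw [← Real.log_le_log_iff (by positivity) (by positivity), Real.log_pow]
      exact hI1
    rw [le_div_iff₀ (by linarith)] at h1
    linarith
  have h1 := (hgrow I).trans (FF_mono ha hb c e hle)
  have h2 : FF a b c e v ≤ cnt c N + cnt e N := by
    unfold FF
    apply Nat.add_le_add
    · apply cnt_mono
      rw [div_le_iff₀ (Real.log_pos (by linarith))]
      exact mul_le_mul_of_nonneg_left (Real.log_le_log (by norm_num) ha2) hN0.le
    · apply cnt_mono
      rw [div_le_iff₀ (Real.log_pos (by linarith))]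
      exact mul_le_mul_of_nonneg_left (Real.log_le_log (by norm_num) hb2) hN0.le
  have h3 : ((M : ℝ)) * I ≤ (cnt c N : ℝ) + cnt e N := by exact_mod_cast h1.trans h2
  have h4 : 2 * T' * (Real.log N - D) ≤ M * (I + 1) := by
    rw [← hlogv]
    rw [div_lt_iff₀ hlρ] at hI2
    have h5 : 0 ≤ Real.log (v / s0) := by rw [hlogv]; linarith
    calc 2 * T' * Real.log (v / s0) ≤ 2 * T' * ((I + 1) * Real.log ρ) :=
          mul_le_mul_of_nonneg_left hI2.le (by positivity)
      _ = (2 * T' * Real.log ρ) * (I + 1) := by ring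
      _ ≤ M * (I + 1) := mul_le_mul_of_nonneg_right hM (by positivity)
  have h5 : T * Real.log N ≤ T' * Real.log N :=
    mul_le_mul_of_nonneg_right (le_max_left _ _) (Real.log_nonneg hN1r)
  nlinarith

end Pool.Agent.TH796.CB
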