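import Mathlib
import Pool.Agent.TH796.CB.TB4

set_option autoImplicit false

open Finset Filter Topology

namespace Pool.Agent.TH796.CB

/-- the `n`-th digit after the point of `x` in base `g` (for `n ≥ 1`) -/
noncomputable def digit (g : ℕ) (x : ℝ) (n : ℕ) : ℤ := ⌊x * (g : ℝ) ^ n⌋ % g

/-- value at `n` of the linear form with the coefficients of `P` in the digits `n, n+1, …` -/
noncomputable def form (P : Polynomial ℤ) (g : ℕ) (x : ℝ) (n : ℕ) : ℤ :=
  ∑ j ∈ P.support, P.coeff j * digit g x (n + j)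

lemma digit_nonneg {g : ℕ} (hg : 2 ≤ g) (x : ℝ) (n : ℕ) : 0 ≤ digit g x n :=
  Int.emod_nonneg _ (by omega)

lemma digit_lt {g : ℕ} (hg : 2 ≤ g) (x : ℝ) (n : ℕ) : digit g x n < g :=
  Int.emod_lt_of_pos _ (by omega)

lemma digit_succ {g : ℕ} (hg : 2 ≤ g) (x : ℝ) (n : ℕ) :
    digit g x (n + 1) = ⌊x * (g : ℝ) ^ (n + 1)⌋ - g * ⌊x * (g : ℝ) ^ n⌋ := by
  unfold digit
  have hg0 : (0 : ℝ) < g := by
    have : 0 < g := by omega
    exact_mod_cast this
  have h1 : ⌊x * (g : ℝ) ^ (n + 1)⌋ / (g : ℤ) = ⌊x * (g : ℝ) ^ n⌋ := by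
    have h2 : x * (g : ℝ) ^ n = x * (g : ℝ) ^ (n + 1) / (g : ℕ) := by
      rw [pow_succ]; field_simp
    rw [h2, Int.floor_div_natCast]
  rw [Int.emod_def, h1]

/-- one shifted digit sequence -/
lemma hasSum_digit {g : ℕ} (hg : 2 ≤ g) (x : ℝ) (j : ℕ) :
    HasSum (fun n => ((if n = 0 then 0 else digit g x (n + j) : ℤ) : ℝ) / (g : ℝ) ^ n)
      ((g : ℝ) ^ j * x - ⌊x * (g : ℝ) ^ j⌋) := by
  have hg0 : (0 : ℝ) < g := by
    have : 0 < g := by omega
    exact_mod_cast this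
  have hg1 : (1 : ℝ) < g := by
    have : 1 < g := by omega
    exact_mod_cast this
  have hpart : ∀ L : ℕ, ∑ n ∈ Finset.range (L + 1),
      ((if n = 0 then 0 else digit g x (n + j) : ℤ) : ℝ) / (g : ℝ) ^ n =
      (⌊x * (g : ℝ) ^ (L + j)⌋ : ℝ) / (g : ℝ) ^ L - ⌊x * (g : ℝ) ^ j⌋ := by
    intro L
    induction L with
    | zero => simp
    | succ L ih =>
      rw [Finset.sum_range_succ, ih, if_neg (by omega), show L + 1 + j = (L + j) + 1 by ring,
        digit_succ hg]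
      push_cast
      rw [pow_succ (g : ℝ) L]
      field_simp
      ring
  have hsum : Summable (fun n => ((if n = 0 then 0 else digit g x (n + j) : ℤ) : ℝ) / (g : ℝ) ^ n) := by
    have hgeo : Summable (fun n : ℕ => (g : ℝ) * (1 / (g : ℝ)) ^ n) := by
      apply Summable.mul_left
      apply summable_geometric_of_lt_one (by positivity)
      rw [div_lt_one hg0]; exact hg1
    refine Summable.of_norm_bounded hgeo ?_
    intro n
    rw [Real.norm_eq_abs, abs_div, abs_of_pos (by positivity : (0 : ℝ) < (g : ℝ) ^ n), one_div,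
      inv_pow, ← div_eq_mul_inv]
    apply div_le_div_of_nonneg_right _ (by positivity)
    split_ifs
    · simp
    · rw [abs_of_nonneg (by exact_mod_cast digit_nonneg hg x _)]
      exact_mod_cast (digit_lt hg x (n + j)).le
  rw [hsum.hasSum_iff_tendsto_nat]
  have ht : Tendsto (fun L : ℕ => ∑ n ∈ Finset.range (L + 1),
      ((if n = 0 then 0 else digit g x (n + j) : ℤ) : ℝ) / (g : ℝ) ^ n) atTop
      (𝓝 ((g : ℝ) ^ j * x - ⌊x * (g : ℝ) ^ j⌋)) := by
    simp_rw [hpart]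
    apply Tendsto.sub_const
    -- floor(x g^(L+j)) / g^L → g^j x
    have hz : Tendsto (fun L : ℕ => (1 / (g : ℝ)) ^ L) atTop (𝓝 0) :=
      tendsto_pow_atTop_nhds_zero_of_lt_one (by positivity) (by rw [div_lt_one hg0]; exact hg1)
    rw [← tendsto_sub_nhds_zero_iff]
    apply squeeze_zero_norm _ hz
    intro L
    have hgL : (0 : ℝ) < (g : ℝ) ^ L := by positivity
    have h1 : (⌊x * (g : ℝ) ^ (L + j)⌋ : ℝ) / (g : ℝ) ^ L - (g : ℝ) ^ j * x =
        -(Int.fract (x * (g : ℝ) ^ (L + j)) / (g : ℝ) ^ L) := by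
      rw [← Int.self_sub_floor, pow_add]
      field_simp
      ring
    rw [h1, norm_neg, Real.norm_eq_abs, abs_of_nonneg (div_nonneg (Int.fract_nonneg _) hgL.le),
      one_div, inv_pow, inv_eq_one_div]
    exact div_le_div_of_nonneg_right (Int.fract_lt_one _).le hgL.le
  exact (tendsto_add_atTop_iff_nat (f := fun L : ℕ => ∑ n ∈ Finset.range L,
      ((if n = 0 then 0 else digit g x (n + j) : ℤ) : ℝ) / (g : ℝ) ^ n) 1).1 ht

/-- the sequence of the values of the form, from `n = 1` on -/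
noncomputable def seq (P : Polynomial ℤ) (g : ℕ) (x : ℝ) (n : ℕ) : ℤ :=
  if n = 0 then 0 else form P g x n

lemma hasSum_seq {g : ℕ} (hg : 2 ≤ g) (x : ℝ) (P : Polynomial ℤ) :
    ∃ I : ℤ, HasSum (fun n => (seq P g x n : ℝ) / (g : ℝ) ^ n) ((P.eval (g : ℤ) : ℤ) * x - I) := by
  refine ⟨∑ j ∈ P.support, P.coeff j * ⌊x * (g : ℝ) ^ j⌋, ?_⟩
  have h1 : HasSum (fun n => ∑ j ∈ P.support, (P.coeff j : ℝ) *
      (((if n = 0 then 0 else digit g x (n + j) : ℤ) : ℝ) / (g : ℝ) ^ n))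
      (∑ j ∈ P.support, (P.coeff j : ℝ) * ((g : ℝ) ^ j * x - ⌊x * (g : ℝ) ^ j⌋)) :=
    hasSum_sum (fun j _ => (hasSum_digit hg x j).mul_left _)
  convert h1 using 1
  · funext n
    unfold seq form
    split_ifs with hn
    · simp
    · push_cast
      rw [Finset.sum_div]
      apply Finset.sum_congr rfl
      intro j _
      rw [mul_div_assoc]
  · rw [Polynomial.eval_eq_sum, Polynomial.sum]
    push_cast
    rw [Finset.sum_mul, ← Finset.sum_sub_distrib]
    apply Finset.sum_congr rfl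
    intro j _
    ring

lemma seq_bound {g : ℕ} (hg : 2 ≤ g) (x : ℝ) (P : Polynomial ℤ) (n : ℕ) :
    |(seq P g x n : ℝ)| ≤ ∑ j ∈ P.support, |(P.coeff j : ℝ)| * g := by
  unfold seq
  split_ifs
  · rw [Int.cast_zero, abs_zero]
    apply Finset.sum_nonneg
    intro j _
    positivity
  · unfold form
    push_cast
    refine (Finset.abs_sum_le_sum_abs _ _).trans ?_
    apply Finset.sum_le_sum
    intro j _
    rw [abs_mul]
    apply mul_le_mul_of_nonneg_left _ (abs_nonneg _)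
    rw [abs_of_nonneg (by exact_mod_cast digit_nonneg hg x _)]
    exact_mod_cast (digit_lt hg x (n + j)).le

lemma pair_digits {a b : ℕ} (ha : 2 ≤ a) (hb : 2 ≤ b) (hab : a.Coprime b) {x y : ℝ}
    (hx : Irrational x) {A B C : ℤ} (hA : A ≠ 0) (hB : B ≠ 0) (hrel : A * x + B * y = C)
    (P Q : Polynomial ℤ) (hP : P.eval (a : ℤ) ≠ 0) (hQ : Q.eval (b : ℤ) ≠ 0) :
    Pair a b (seq P a x) (seq Q b y) := by
  refine ⟨ha, hb, hab, ?_, ?_⟩
  · refine ⟨max (∑ j ∈ P.support, |(P.coeff j : ℝ)| * a) (∑ j ∈ Q.support, |(Q.coeff j : ℝ)| * b),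
      fun n => (seq_bound ha x P n).trans (le_max_left _ _),
      fun n => (seq_bound hb y Q n).trans (le_max_right _ _)⟩
  · obtain ⟨I, hI⟩ := hasSum_seq ha x P
    obtain ⟨J, hJ⟩ := hasSum_seq hb y Q
    refine ⟨_, _, A * Q.eval (b : ℤ), B * P.eval (a : ℤ),
      C * (P.eval (a : ℤ) * Q.eval (b : ℤ)) - A * Q.eval (b : ℤ) * I - B * P.eval (a : ℤ) * J,
      mul_ne_zero hA hQ, mul_ne_zero hB hP, ?_, hI, hJ, ?_⟩
    · exact (hx.intCast_mul hP).sub_intCast I
    · push_cast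
      rw [← hrel]
      ring

/-- number of `1 ≤ n ≤ v` for which the form with the coefficients of `P` does not vanish at the digits
`n, n+1, …` of `x` in base `g` -/
noncomputable def fails (P : Polynomial ℤ) (g : ℕ) (x : ℝ) (v : ℝ) : ℕ :=
  ((Finset.Icc 1 ⌊v⌋₊).filter (fun n => form P g x n ≠ 0)).card

lemma fails_eq (P : Polynomial ℤ) (g : ℕ) (x v : ℝ) : fails P g x v = cnt (seq P g x) v := by
  unfold fails cnt seq
  congr 1
  ext n
  simp only [Finset.mem_filter, Finset.mem_Icc, Finset.mem_range]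
  constructor
  · rintro ⟨⟨h1, h2⟩, h3⟩
    refine ⟨by omega, ?_⟩
    rw [if_neg (by omega)]
    exact h3
  · rintro ⟨h1, h2⟩
    by_cases h0 : n = 0
    · rw [if_pos h0] at h2
      exact absurd rfl h2
    · rw [if_neg h0] at h2
      exact ⟨⟨by omega, by omega⟩, h2⟩

end Pool.Agent.TH796.CB
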